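import Pool.Agent.Helper51K9.TI.Fac

/-!
# L-functions of sums and differences, and the ratio of two values
-/

set_option autoImplicit false
set_option linter.unusedSectionVars false

namespace Pool.Agent.Helper51K9.TI

open Matrix Polynomial Filter Topology

/-- two meromorphic functions on the plane that agree on a right half plane agree near every point -/
theorem mero_identity {f g : ℂ → ℂ} (hf : MeromorphicOn f Set.univ)
    (hg : MeromorphicOn g Set.univ) (b : ℝ) (h : ∀ s : ℂ, b < s.re → f s = g s) (z : ℂ) :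
    ∀ᶠ s in 𝓝[≠] z, f s = g s := by
  have hfg : MeromorphicOn (f - g) Set.univ := hf.sub hg
  have h0 : meromorphicOrderAt (f - g) ((b + 1 : ℝ) : ℂ) = ⊤ := by
    rw [meromorphicOrderAt_eq_top_iff]
    apply Filter.Eventually.filter_mono nhdsWithin_le_nhds
    have ho : IsOpen {s : ℂ | b < s.re} := isOpen_lt continuous_const Complex.continuous_re
    filter_upwards [ho.mem_nhds (by
      show b < (((b + 1 : ℝ) : ℂ)).re
      rw [Complex.ofReal_re]; linarith)] with s hs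
    show f s - g s = 0
    rw [h s hs, sub_self]
  have h1 : meromorphicOrderAt (f - g) z = ⊤ := by
    by_contra hne
    exact hfg.meromorphicOrderAt_ne_top_of_isPreconnected isPreconnected_univ
      (Set.mem_univ z) (Set.mem_univ ((b + 1 : ℝ) : ℂ)) hne h0
  rw [meromorphicOrderAt_eq_top_iff] at h1
  filter_upwards [h1] with s hs
  exact sub_eq_zero.1 hs

variable {Γ : Type} [Group Γ] {E : Type} [Field E] {n : ℕ} {P : Type} (M : Realizations Γ E n P)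

section

variable {E' : Type} [Field E'] [Algebra E E'] {r r' : Type} [Fintype r] [DecidableEq r]
  [Fintype r'] [DecidableEq r'] {ρ : Γ →* Matrix r r E'} {ρ' : Γ →* Matrix r' r' E'}

/-- the product of L-functions -/
theorem IsLFunction.mul {L L' : (E' →+* ℂ) → ℂ → ℂ} (hL : IsLFunction M ρ L)
    (hL' : IsLFunction M ρ' L') : IsLFunction M (dsum ρ ρ') (fun τ s => L τ s * L' τ s) := by
  obtain ⟨Q, hQ, hL⟩ := hL
  obtain ⟨Q', hQ', hL'⟩ := hL'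
  refine ⟨fun p => Q p * Q' p, fun p => (hQ p).mul M (hQ' p), fun τ => ?_⟩
  obtain ⟨m1, b, hb⟩ := hL τ
  obtain ⟨m2, b', hb'⟩ := hL' τ
  refine ⟨m1.mul m2, max b b', fun s hs => ?_⟩
  have := (hb s (lt_of_le_of_lt (le_max_left _ _) hs)).mul
    (hb' s (lt_of_le_of_lt (le_max_right _ _) hs))
  convert this using 2 with p
  rw [Polynomial.map_mul, Polynomial.eval_mul, mul_inv]

/-- the L-functions of isomorphic representations -/
theorem IsLFunction.iso {A : Matrix r r' E'} {B : Matrix r' r E'} (hAB : A * B = 1)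
    (hBA : B * A = 1) (hA : ∀ γ, ρ γ * A = A * ρ' γ) {L : (E' →+* ℂ) → ℂ → ℂ}
    (hL : IsLFunction M ρ' L) : IsLFunction M ρ L := by
  obtain ⟨Q, hQ, hL⟩ := hL
  exact ⟨Q, fun p => (hQ p).iso M hAB hBA hA, hL⟩

/-- two L-functions of one representation agree near every point -/
theorem IsLFunction.eventuallyEq [Algebra.IsAlgebraic E E'] {L L' : (E' →+* ℂ) → ℂ → ℂ}
    (hL : IsLFunction M ρ L) (hL' : IsLFunction M ρ L') (τ : E' →+* ℂ) (z : ℂ) :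
    ∀ᶠ s in 𝓝[≠] z, L τ s = L' τ s := by
  obtain ⟨Q, hQ, hP⟩ := hL
  obtain ⟨Q₁, hQ₁, hP₁⟩ := hL'
  have hQQ : Q = Q₁ := funext fun p => (hQ p).unique M (hQ₁ p)
  subst hQQ
  obtain ⟨m1, b, hb⟩ := hP τ
  obtain ⟨m2, b', hb'⟩ := hP₁ τ
  exact mero_identity m1 m2 (max b b') (fun s hs =>
    (hb s (lt_of_le_of_lt (le_max_left _ _) hs)).unique
      (hb' s (lt_of_le_of_lt (le_max_right _ _) hs))) z

/-- The L-functions of `M ⊗ ρ` have nonzero values at `z` and `z'`, the quotient is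
`e W ^ dim ρ` with `e` in the field of coefficients. -/
def Ratio (W z z' : ℂ) (ρ : Γ →* Matrix r r E') : Prop :=
  ∀ L, IsLFunction M ρ L → ∃ e : E', e ≠ 0 ∧ ∀ τ : E' →+* ℂ, ∃ a a' : ℂ, a ≠ 0 ∧ a' ≠ 0 ∧
    Tendsto (L τ) (𝓝[≠] z) (𝓝 a) ∧ Tendsto (L τ) (𝓝[≠] z') (𝓝 a') ∧
    a = τ e * W ^ Fintype.card r * a'

/-- the L-function exists and has the ratio -/
def Good (W z z' : ℂ) (ρ : Γ →* Matrix r r E') : Prop :=
  ∃ L, IsLFunction M ρ L ∧ (∀ τ, ∃ b : ℝ, ∀ s : ℂ, b < s.re → L τ s ≠ 0) ∧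
    ∃ e : E', e ≠ 0 ∧ ∀ τ : E' →+* ℂ, ∃ a a' : ℂ, a ≠ 0 ∧ a' ≠ 0 ∧
      Tendsto (L τ) (𝓝[≠] z) (𝓝 a) ∧ Tendsto (L τ) (𝓝[≠] z') (𝓝 a') ∧
      a = τ e * W ^ Fintype.card r * a'

theorem good_of {W z z' : ℂ} (h : HasL M ρ) (h' : Ratio M W z z' ρ) : Good M W z z' ρ := by
  obtain ⟨L, hL, hz⟩ := h
  exact ⟨L, hL, hz, h' L hL⟩

theorem Good.hasL {W z z' : ℂ} (h : Good M W z z' ρ) : HasL M ρ := by
  obtain ⟨L, hL, hz, -⟩ := h
  exact ⟨L, hL, hz⟩

theorem Good.ratio [Algebra.IsAlgebraic E E'] {W z z' : ℂ} (h : Good M W z z' ρ) :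
    Ratio M W z z' ρ := by
  obtain ⟨L, hL, hz, e, he, h1⟩ := h
  intro L' hL'
  refine ⟨e, he, fun τ => ?_⟩
  obtain ⟨a, a', h2, h3, h4, h5, h6⟩ := h1 τ
  exact ⟨a, a', h2, h3, h4.congr' (hL.eventuallyEq M hL' τ z),
    h5.congr' (hL.eventuallyEq M hL' τ z'), h6⟩

theorem Good.dsum {W z z' : ℂ} (h : Good M W z z' ρ) (h' : Good M W z z' ρ') :
    Good M W z z' (TI.dsum ρ ρ') := by
  obtain ⟨L, hL, hz, e, he, h1⟩ := h
  obtain ⟨L', hL', hz', e', he', h1'⟩ := h'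
  refine ⟨_, hL.mul M hL', fun τ => ?_, e * e', mul_ne_zero he he', fun τ => ?_⟩
  · obtain ⟨b, hb⟩ := hz τ
    obtain ⟨b', hb'⟩ := hz' τ
    exact ⟨max b b', fun s hs => mul_ne_zero (hb s (lt_of_le_of_lt (le_max_left _ _) hs))
      (hb' s (lt_of_le_of_lt (le_max_right _ _) hs))⟩
  · obtain ⟨a, a', h2, h3, h4, h5, h6⟩ := h1 τ
    obtain ⟨c, c', k2, k3, k4, k5, k6⟩ := h1' τ
    refine ⟨a * c, a' * c', mul_ne_zero h2 k2, mul_ne_zero h3 k3, h4.mul k4, h5.mul k5, ?_⟩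
    rw [h6, k6, Fintype.card_sum, pow_add, map_mul]
    ring

end

section

variable {E' : Type} [Field E'] [NumberField E'] [Algebra E E'] [Algebra.IsAlgebraic E E']
  (E'' : Type) [Field E''] [NumberField E''] [Algebra E E''] [Algebra E' E'']
  [IsScalarTower E E' E''] [Algebra.IsAlgebraic E' E''] {r : Type} [Fintype r] [DecidableEq r]
  (ρ : Γ →* Matrix r r E')

theorem isL_base {L : (E' →+* ℂ) → ℂ → ℂ} (hL : IsLFunction M ρ L) :
    IsLFunction M (baseRep E'' ρ) (fun τ => L (τ.comp (algebraMap E' E''))) := by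
  obtain ⟨Q, hQ, hE⟩ := hL
  refine ⟨fun v => (Q v).map (algebraMap E' E''), fun v => isFactor_base M E'' ρ (hQ v),
    fun τ => ?_⟩
  obtain ⟨h1, b, h2⟩ := hE (τ.comp (algebraMap E' E''))
  refine ⟨h1, b, fun s hs => ?_⟩
  have h3 := h2 s hs
  simp only [Polynomial.map_map]
  exact h3

/-- descent of the coefficient field -/
theorem ratio_desc {W z z' : ℂ} (hW : W ≠ 0) (h : Ratio M W z z' (baseRep E'' ρ)) :
    Ratio M W z z' ρ := by
  intro L hL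
  obtain ⟨e'', he0, he''⟩ := h _ (isL_base M E'' ρ hL)
  have huniq : ∀ τ σ : E'' →+* ℂ, τ.comp (algebraMap E' E'') = σ.comp (algebraMap E' E'') →
      τ e'' = σ e'' := by
    intro τ σ hτσ
    obtain ⟨a, a', h1, h2, h3, h4, h5⟩ := he'' τ
    obtain ⟨b, b', k1, k2, k3, k4, k5⟩ := he'' σ
    simp only [hτσ] at h3 h4
    have e1 := tendsto_nhds_unique h3 k3
    have e2 := tendsto_nhds_unique h4 k4
    subst e1
    subst e2
    rw [h5] at k5
    exact mul_right_cancel₀ (pow_ne_zero _ hW) (mul_right_cancel₀ h2 k5)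
  obtain ⟨τ₀⟩ : Nonempty (E' →+* ℂ) := inferInstance
  obtain ⟨τ₁, hτ₁⟩ := exists_ext E' E'' ℂ τ₀
  obtain ⟨e, he⟩ : ∃ a : E', algebraMap E' E'' a = e'' := by
    let _ : Algebra E' ℂ := τ₀.toAlgebra
    refine mem_of_conj (K := ℂ) e'' (τ₁ e'') fun j => ?_
    have h1 : (j : E'' →+* ℂ).comp (algebraMap E' E'') = τ₀ := RingHom.ext fun x => j.commutes x
    exact huniq (j : E'' →+* ℂ) τ₁ (by rw [h1, hτ₁])
  refine ⟨e, ?_, fun τ => ?_⟩
  · rintro rfl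
    exact he0 (by rw [← he, map_zero])
  · obtain ⟨τ', hτ'⟩ := exists_ext E' E'' ℂ τ
    obtain ⟨a, a', h1, h2, h3, h4, h5⟩ := he'' τ'
    simp only [hτ'] at h3 h4
    refine ⟨a, a', h1, h2, h3, h4, ?_⟩
    rw [h5, ← he, ← hτ']
    rfl

/-- the L-function and the ratio of a difference -/
theorem good_sub {W z z' : ℂ} (hW : W ≠ 0) {r₁ r₂ : Type} [Fintype r₁] [DecidableEq r₁]
    [Fintype r₂] [DecidableEq r₂] {ρ₁ : Γ →* Matrix r₁ r₁ E''} {ρ₂ : Γ →* Matrix r₂ r₂ E''}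
    (h₁ : Good M W z z' ρ₁) (h₂ : Good M W z z' ρ₂)
    (A : Matrix (r ⊕ r₂) r₁ E'') (B : Matrix r₁ (r ⊕ r₂) E'') (hAB : A * B = 1) (hBA : B * A = 1)
    (hA : ∀ γ, dsum (baseRep E'' ρ) ρ₂ γ * A = A * ρ₁ γ)
    (hcard : Fintype.card r + Fintype.card r₂ = Fintype.card r₁) : Good M W z z' ρ := by
  have : Algebra.IsAlgebraic E E'' := Algebra.IsAlgebraic.trans E E' E''
  obtain ⟨L₁, hL₁, hz₁, e₁, he₁, h1⟩ := h₁
  obtain ⟨L₂, hL₂, hz₂, e₂, he₂, h2⟩ := h₂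
  have hL₁' := hL₁
  have hL₂' := hL₂
  obtain ⟨Q₁, hQ₁, hP₁⟩ := hL₁
  obtain ⟨Q₂, hQ₂, hP₂⟩ := hL₂
  have hQ : ∀ p, ∃ Q₀ : E'[X], IsLocalFactor M ρ p Q₀ ∧
      Q₁ p = Q₀.map (algebraMap E' E'') * Q₂ p := by
    intro p
    have h1 := (hQ₁ p).iso M hAB hBA hA
    obtain ⟨Q, h2, h3⟩ := IsLocalFactor.div M h1 (hQ₂ p)
    obtain ⟨Q₀, h4, h5⟩ := factor_desc M E'' ρ p h2
    exact ⟨Q₀, h5, by rw [h4, h3]⟩
  choose Q₀ hQ₀ hQQ using hQ
  choose ext hext using exists_ext E' E'' ℂ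
  have hL : IsLFunction M ρ (fun τ s => L₁ (ext τ) s / L₂ (ext τ) s) := by
    refine ⟨Q₀, hQ₀, fun τ => ?_⟩
    obtain ⟨m1, b, hb⟩ := hP₁ (ext τ)
    obtain ⟨m2, b', hb'⟩ := hP₂ (ext τ)
    obtain ⟨z, hz⟩ := hz₂ (ext τ)
    refine ⟨m1.div m2, max b (max b' z), fun s hs => ?_⟩
    have hs1 : b < s.re := lt_of_le_of_lt (le_max_left _ _) hs
    have hs2 : b' < s.re := lt_of_le_of_lt ((le_max_left _ _).trans (le_max_right _ _)) hs
    have hs3 : z < s.re := lt_of_le_of_lt ((le_max_right _ _).trans (le_max_right _ _)) hs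
    have k1 := hb s hs1
    have k2 := hb' s hs2
    have k3 := hz s hs3
    have k4 : ∀ p : P, ((Q₂ p).map (ext τ)).eval ((M.norm p : ℂ) ^ (-s)) ≠ 0 := by
      intro p h0
      apply k3
      refine k2.unique ?_
      have : HasProd (fun p : P =>
          (((Q₂ p).map (ext τ)).eval ((M.norm p : ℂ) ^ (-s)))⁻¹) 0 := by
        refine hasProd_zero_of_exists_eq_zero ⟨p, ?_⟩
        rw [h0, _root_.inv_zero]
      exact this
    have k5 : Tendsto (fun F : Finset P => (∏ p ∈ F,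
        (((Q₁ p).map (ext τ)).eval ((M.norm p : ℂ) ^ (-s)))⁻¹) /
        ∏ p ∈ F, (((Q₂ p).map (ext τ)).eval ((M.norm p : ℂ) ^ (-s)))⁻¹) atTop
        (𝓝 (L₁ (ext τ) s / L₂ (ext τ) s)) := Tendsto.div k1 k2 k3
    refine k5.congr fun F => ?_
    rw [← Finset.prod_div_distrib]
    refine Finset.prod_congr rfl fun p _ => ?_
    have h6 : (Q₁ p).map (ext τ) = (Q₀ p).map τ * (Q₂ p).map (ext τ) := by
      rw [hQQ, Polynomial.map_mul, Polynomial.map_map, hext]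
    rw [h6, Polynomial.eval_mul, mul_inv, div_inv_eq_mul, mul_assoc, inv_mul_cancel₀ (k4 p),
      mul_one]
  refine ⟨_, hL, fun τ => ?_, ?_⟩
  · obtain ⟨b, hb⟩ := hz₁ (ext τ)
    obtain ⟨b', hb'⟩ := hz₂ (ext τ)
    exact ⟨max b b', fun s hs => div_ne_zero (hb s (lt_of_le_of_lt (le_max_left _ _) hs))
      (hb' s (lt_of_le_of_lt (le_max_right _ _) hs))⟩
  · refine ratio_desc M E'' ρ hW ?_ _ hL
    intro L' hL'
    refine ⟨e₁ / e₂, div_ne_zero he₁ he₂, fun τ => ?_⟩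
    obtain ⟨a, a', k1, k2, k3, k4, k5⟩ := h1 τ
    obtain ⟨b, b', l1, l2, l3, l4, l5⟩ := h2 τ
    have hL3 := (hL'.mul M hL₂').eventuallyEq M (hL₁'.iso M hAB hBA hA) τ
    have hlim : ∀ {w a b : ℂ}, b ≠ 0 → Tendsto (L₁ τ) (𝓝[≠] w) (𝓝 a) →
        Tendsto (L₂ τ) (𝓝[≠] w) (𝓝 b) → Tendsto (L' τ) (𝓝[≠] w) (𝓝 (a / b)) := by
      intro w a b hb ha hb'
      have hne : ∀ᶠ s in 𝓝[≠] w, L₂ τ s ≠ 0 := hb'.eventually_ne hb
      refine (ha.div hb' hb).congr' ?_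
      filter_upwards [hL3 w, hne] with s h1 h2
      change L₁ τ s / L₂ τ s = L' τ s
      rw [← h1]
      field_simp
    refine ⟨a / b, a' / b', div_ne_zero k1 l1, div_ne_zero k2 l2, hlim l1 k3 l3, hlim l2 k4 l4, ?_⟩
    have n1 : τ e₂ ≠ 0 := (map_ne_zero τ).2 he₂
    rw [k5, l5, ← hcard, pow_add, map_div₀]
    field_simp

end

end Pool.Agent.Helper51K9.TI
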