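import Pool.Agent.Helper51K9.TI.Mot
import Pool.Agent.Helper51K9.TI.LF

/-!
# Totally imaginary fields: degrees, `Δ_F`, and the constants in the ratio formula
-/

set_option autoImplicit false
set_option linter.unusedSectionVars false

namespace Pool.Agent.Helper51K9.TI

open Matrix Polynomial Filter Topology NumberField

section

variable {A : Type} [Field A] [CharZero A] [IsAlgClosed A]

theorem exists_delta (ι : A →+* ℂ) (c : A ≃ₐ[ℚ] A) (K : IntermediateField ℚ A) :
    ∃ δ, IsDelta ι c K δ := by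
  by_cases h : ∃ (D : maxReal c K) (x : A), IsCM ι c K D x
  · obtain ⟨D, x, hx⟩ := h
    obtain ⟨s, hs⟩ := IsAlgClosed.exists_pow_nat_eq (algebraMap ℚ A (Algebra.norm ℚ D))
      (n := 2) (by norm_num)
    exact ⟨_, Or.inl ⟨D, x, hx, s, hs, rfl⟩⟩
  · exact ⟨1, Or.inr ⟨h, rfl⟩⟩

theorem delta_ne {ι : A →+* ℂ} {c : A ≃ₐ[ℚ] A} {K : IntermediateField ℚ A} [FiniteDimensional ℚ K]
    {δ : A} (h : IsDelta ι c K δ) : δ ≠ 0 := by
  obtain ⟨D, x, hx, s, hs, rfl⟩ | ⟨-, rfl⟩ := h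
  · apply pow_ne_zero
    rintro rfl
    have h1 : (ι (D : A)).re < 0 := hx.2.2 1
    have hle : maxReal c K ≤ K := fun y hy => hy.1
    have : FiniteDimensional ℚ (maxReal c K) :=
      Module.Finite.of_injective (IntermediateField.inclusion hle).toLinearMap
        (IntermediateField.inclusion hle).injective
    have h2 : (D : maxReal c K) ≠ 0 := by
      rintro rfl
      rw [ZeroMemClass.coe_zero, map_zero, Complex.zero_re] at h1
      exact lt_irrefl _ h1
    have h3 : Algebra.norm ℚ D ≠ 0 := Algebra.norm_ne_zero_iff.2 h2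
    apply h3
    have h4 : algebraMap ℚ A (Algebra.norm ℚ D) = 0 := by rw [← hs]; norm_num
    exact (map_eq_zero _).1 h4
  · exact one_ne_zero

variable [Algebra.IsAlgebraic ℚ A]

/-- every embedding of `K` extends to an automorphism -/
theorem exists_extend (K : IntermediateField ℚ A) (τ : K →ₐ[ℚ] A) :
    ∃ γ : A ≃ₐ[ℚ] A, ∀ x : K, γ x = τ x := by
  have h := IntermediateField.exists_algHom_of_splits
    (F := ℚ) (E := A) (K := A) (L := K) (fun s => ⟨Algebra.IsIntegral.isIntegral s,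
      IsAlgClosed.splits _⟩) τ
  obtain ⟨f, hf⟩ := h
  refine ⟨AlgEquiv.ofBijective f (Algebra.IsAlgebraic.algHom_bijective f), fun x => ?_⟩
  have := congrArg (fun g : K →ₐ[ℚ] A => g x) hf
  exact this

theorem conj_sq {ι : A →+* ℂ} {c : A ≃ₐ[ℚ] A} (hc : IsConj ι c) : c * c = 1 := by
  ext x
  apply ι.injective
  rw [AlgEquiv.mul_apply, hc, hc, Complex.conj_conj, AlgEquiv.one_apply]

/-- the degree of a totally imaginary field is even -/
theorem even_finrank {ι : A →+* ℂ} {c : A ≃ₐ[ℚ] A} (hc : IsConj ι c) (F : IntermediateField ℚ A)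
    [FiniteDimensional ℚ F] (hF : TotallyImaginary c F) : Even (Module.finrank ℚ F) := by
  classical
  let f : Function.End (F →ₐ[ℚ] A) := fun τ => (c : A →ₐ[ℚ] A).comp τ
  have hf : f ^ 2 ^ 1 = 1 := by
    rw [pow_one, pow_two]
    funext τ
    ext x
    change c (c (τ x)) = τ x
    rw [← AlgEquiv.mul_apply, conj_sq hc, AlgEquiv.one_apply]
  have h1 := Equiv.Perm.card_fixedPoints_modEq (p := 2) (n := 1) hf
  have h2 : f.fixedPoints = ∅ := by
    rw [Set.eq_empty_iff_forall_notMem]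
    intro τ hτ
    obtain ⟨γ, hγ⟩ := exists_extend F τ
    apply hF γ⁻¹
    rw [IntermediateField.mem_fixingSubgroup_iff]
    intro x hx
    have h3 : c (τ ⟨x, hx⟩) = τ ⟨x, hx⟩ := congrArg (fun g : F →ₐ[ℚ] A => g ⟨x, hx⟩) hτ
    have h4 : γ x = τ ⟨x, hx⟩ := hγ ⟨x, hx⟩
    rw [AlgEquiv.mul_apply, AlgEquiv.mul_apply, inv_inv, h4, h3, ← h4, ← AlgEquiv.mul_apply,
      inv_mul_cancel, AlgEquiv.one_apply]
  have h3 : Fintype.card f.fixedPoints = 0 := by
    rw [Fintype.card_eq_zero_iff, h2]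
    infer_instance
  rw [h3] at h1
  have h4 : Fintype.card (F →ₐ[ℚ] A) = Module.finrank ℚ F := AlgHom.card ℚ F A
  rw [h4] at h1
  exact even_iff_two_dvd.2 ((Nat.modEq_zero_iff_dvd).1 h1)

theorem isGalois : IsGalois ℚ A := by
  have : IsAlgClosure ℚ A := ⟨inferInstance, inferInstance⟩
  exact IsAlgClosure.isGalois ℚ A

/-- the index of the Galois group -/
theorem index_gal (F K : IntermediateField ℚ A) [FiniteDimensional ℚ F] [FiniteDimensional ℚ K]
    (hFK : F ≤ K) : (gal F K).index = IntermediateField.relfinrank F K := by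
  have hG : IsGalois ℚ A := isGalois
  have h1 : K.fixingSubgroup ≤ F.fixingSubgroup := IntermediateField.fixingSubgroup_antitone hFK
  have h2 : K.fixingSubgroup.relIndex F.fixingSubgroup * F.fixingSubgroup.index =
    K.fixingSubgroup.index := Subgroup.relIndex_mul_index h1
  rw [← IntermediateField.finrank_eq_fixingSubgroup_index,
    ← IntermediateField.finrank_eq_fixingSubgroup_index,
    ← IntermediateField.finrank_bot_mul_relfinrank hFK, mul_comm] at h2
  exact Nat.eq_of_mul_eq_mul_left Module.finrank_pos h2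

theorem card_quot (F K : IntermediateField ℚ A) [FiniteDimensional ℚ F] [FiniteDimensional ℚ K]
    (hFK : F ≤ K) [Fintype (F.fixingSubgroup ⧸ gal F K)] :
    Fintype.card (F.fixingSubgroup ⧸ gal F K) = IntermediateField.relfinrank F K := by
  rw [← index_gal F K hFK, Subgroup.index, Nat.card_eq_fintype_card]

theorem finite_quot (F K : IntermediateField ℚ A) [FiniteDimensional ℚ F] [FiniteDimensional ℚ K]
    (hFK : F ≤ K) : Finite (F.fixingSubgroup ⧸ gal F K) := by
  have h1 : (gal F K).FiniteIndex := by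
    refine ⟨?_⟩
    rw [index_gal F K hFK]
    intro h0
    have h2 := IntermediateField.finrank_bot_mul_relfinrank hFK
    rw [h0, mul_zero] at h2
    exact Module.finrank_pos.ne h2
  infer_instance

/-- the fields between `F` and `Ω` -/
theorem exists_field_of (F Ω : IntermediateField ℚ A) [FiniteDimensional ℚ Ω] (hF : F ≤ Ω)
    (U : Subgroup F.fixingSubgroup) (hU : gal F Ω ≤ U) : ∃ K : IntermediateField ℚ A,
      F ≤ K ∧ K ≤ Ω ∧ gal F K = U := by
  have hG : IsGalois ℚ A := isGalois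
  let V : Subgroup (A ≃ₐ[ℚ] A) := U.map F.fixingSubgroup.subtype
  have h1 : Ω.fixingSubgroup ≤ V := by
    intro γ hγ
    have h2 : γ ∈ F.fixingSubgroup := IntermediateField.fixingSubgroup_antitone hF hγ
    exact ⟨⟨γ, h2⟩, hU (Subgroup.mem_subgroupOf.2 hγ), rfl⟩
  have h3 : V ≤ F.fixingSubgroup := by
    rintro _ ⟨γ, -, rfl⟩
    exact γ.2
  have h4 : (IntermediateField.fixedField V).fixingSubgroup = V := by
    have h1 : IsOpen (V : Set (A ≃ₐ[ℚ] A)) := Subgroup.isOpen_mono h1 Ω.fixingSubgroup_isOpen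
    have h2 : IsClosed (V : Set (A ≃ₐ[ℚ] A)) := Subgroup.isClosed_of_isOpen V h1
    exact InfiniteGalois.fixingSubgroup_fixedField ⟨V, h2⟩
  refine ⟨IntermediateField.fixedField V, ?_, ?_, ?_⟩
  · rw [← InfiniteGalois.fixedField_fixingSubgroup F]
    exact IntermediateField.fixedField_antitone h3
  · rw [← InfiniteGalois.fixedField_fixingSubgroup Ω]
    exact IntermediateField.fixedField_antitone h1
  · unfold gal
    rw [h4]
    ext γ
    rw [Subgroup.mem_subgroupOf]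
    constructor
    · rintro ⟨δ, hδ, h5⟩
      have : δ = γ := Subtype.ext h5
      rwa [← this]
    · intro h5
      exact ⟨γ, h5, rfl⟩

end

section

variable {A : Type} [Field A] [CharZero A] {F : IntermediateField ℚ A} {E : Type} [Field E] {n : ℕ}
  (M : Motive F E n) {E' : Type} [Field E'] [CharZero E'] [Algebra E E'] {r : Type} [Fintype r]
  [DecidableEq r]

/-- the formula with the constant `C` -/
def RF (m : ℤ) (C : ℂ) (ρ : F.fixingSubgroup →* Matrix r r E') : Prop :=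
  ∀ Λ, IsCompletedLFunction M ρ Λ →
    ∃ e : E', e ≠ 0 ∧ ∀ τ : E' →+* ℂ, ∃ a a' : ℂ, a ≠ 0 ∧ a' ≠ 0 ∧
      Tendsto (Λ τ) (𝓝[≠] (m : ℂ)) (𝓝 a) ∧ Tendsto (Λ τ) (𝓝[≠] ((m + 1 : ℤ) : ℂ)) (𝓝 a') ∧
      a = τ e * C * a'

theorem RF.congr {m : ℤ} {C C' : ℂ} {ρ : F.fixingSubgroup →* Matrix r r E'} (h : RF M m C ρ)
    (q : ℚ) (hq : q ≠ 0) (hC : C' = q * C) : RF M m C' ρ := by
  intro Λ hΛ
  obtain ⟨e, he, h1⟩ := h Λ hΛ
  refine ⟨e * (q : E')⁻¹, mul_ne_zero he (inv_ne_zero (Rat.cast_ne_zero.2 hq)), fun τ => ?_⟩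
  obtain ⟨a, a', h2, h3, h4, h5, h6⟩ := h1 τ
  refine ⟨a, a', h2, h3, h4, h5, ?_⟩
  have hq' : (q : ℂ) ≠ 0 := Rat.cast_ne_zero.2 hq
  rw [h6, hC, map_mul, map_inv₀, map_ratCast]
  field_simp

theorem gammaC_ne {s : ℂ} (hs : 0 < s.re) : Complex.Gammaℂ s ≠ 0 := by
  rw [Complex.Gammaℂ_def]
  have h1 : (2 * (Real.pi : ℂ)) ≠ 0 := by
    have hpi : (Real.pi : ℂ) ≠ 0 := by exact_mod_cast Real.pi_ne_zero
    exact mul_ne_zero two_ne_zero hpi
  refine mul_ne_zero (mul_ne_zero two_ne_zero ?_) (Complex.Gamma_ne_zero_of_re_pos hs)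
  rw [Complex.cpow_def_of_ne_zero h1]
  exact Complex.exp_ne_zero _

theorem gammaC_cont {s : ℂ} (hs : 0 < s.re) : ContinuousAt Complex.Gammaℂ s := by
  have h1 := (Complex.differentiable_Gammaℂ_inv s).continuousAt
  have h2 : (Complex.Gammaℂ s)⁻¹ ≠ 0 := inv_ne_zero (gammaC_ne hs)
  have h3 := h1.inv₀ h2
  have h4 : (fun s => (Complex.Gammaℂ s)⁻¹)⁻¹ = Complex.Gammaℂ := by
    funext x
    rw [Pi.inv_apply, inv_inv]
  rwa [h4] at h3

theorem gamma_ne (k : ℕ) {s : ℂ} (hs : ∀ j, (M.hodge j : ℝ) < s.re) : gammaFactor M k s ≠ 0 := by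
  unfold gammaFactor
  refine Finset.prod_ne_zero_iff.2 fun j _ => pow_ne_zero _ (gammaC_ne ?_)
  rw [Complex.sub_re, Complex.intCast_re]
  linarith [hs j]

theorem gamma_tendsto (k : ℕ) {s : ℂ} (hs : ∀ j, (M.hodge j : ℝ) < s.re) :
    Tendsto (gammaFactor M k) (𝓝[≠] s) (𝓝 (gammaFactor M k s)) := by
  have h : ContinuousAt (gammaFactor M k) s := by
    unfold gammaFactor
    refine tendsto_finsetProd _ fun j _ => ?_
    refine ContinuousAt.pow ?_ k
    have h1 : ContinuousAt Complex.Gammaℂ (s - M.hodge j) := gammaC_cont (by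
      rw [Complex.sub_re, Complex.intCast_re]
      linarith [hs j])
    exact ContinuousAt.comp (f := fun s : ℂ => s - M.hodge j) h1
      (continuousAt_id.sub continuousAt_const)
  exact h.tendsto.mono_left nhdsWithin_le_nhds

theorem gamma_pow (k : ℕ) (s : ℂ) : gammaFactor M k s = gammaFactor M 1 s ^ k := by
  unfold gammaFactor
  simp only [pow_one]
  rw [Finset.prod_pow]

/-- the formula for the completed L-functions and for the L-functions -/
theorem rf_iff {m : ℤ} (hm : IsCritical M m) {C : ℂ} (ρ : F.fixingSubgroup →* Matrix r r E') :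
    RF M m (C ^ Fintype.card r) ρ ↔
      Ratio M.toRealizations (C * (gammaFactor M 1 ((m + 1 : ℤ) : ℂ) / gammaFactor M 1 (m : ℂ)))
        (m : ℂ) ((m + 1 : ℤ) : ℂ) ρ := by
  have hs : ∀ j, (M.hodge j : ℝ) < ((m : ℂ)).re := by
    intro j
    rw [Complex.intCast_re]
    exact_mod_cast (hm j).1
  have hs' : ∀ j, (M.hodge j : ℝ) < (((m + 1 : ℤ) : ℂ)).re := by
    intro j
    rw [Complex.intCast_re]
    have := (hm j).1
    exact_mod_cast this.trans (lt_add_one m)
  set g := gammaFactor M 1 (m : ℂ) with hg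
  set g' := gammaFactor M 1 ((m + 1 : ℤ) : ℂ) with hg'
  have hg0 : g ≠ 0 := gamma_ne M 1 hs
  have hg0' : g' ≠ 0 := gamma_ne M 1 hs'
  have t1 := gamma_tendsto M (Fintype.card r) hs
  have t2 := gamma_tendsto M (Fintype.card r) hs'
  rw [gamma_pow] at t1 t2
  have p1 : g ^ Fintype.card r ≠ 0 := pow_ne_zero _ hg0
  have p2 : g' ^ Fintype.card r ≠ 0 := pow_ne_zero _ hg0'
  have e1 : ∀ᶠ s in 𝓝[≠] (m : ℂ), gammaFactor M (Fintype.card r) s ≠ 0 := t1.eventually_ne p1
  have e2 : ∀ᶠ s in 𝓝[≠] ((m + 1 : ℤ) : ℂ), gammaFactor M (Fintype.card r) s ≠ 0 :=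
    t2.eventually_ne p2
  constructor
  · intro h L hL
    obtain ⟨e, he, h1⟩ := h (fun τ s => gammaFactor M (Fintype.card r) s * L τ s)
      ⟨L, hL, fun τ s => rfl⟩
    refine ⟨e, he, fun τ => ?_⟩
    obtain ⟨a, a', h2, h3, h4, h5, h6⟩ := h1 τ
    refine ⟨a / g ^ Fintype.card r, a' / g' ^ Fintype.card r, div_ne_zero h2 p1,
      div_ne_zero h3 p2, ?_, ?_, ?_⟩
    · refine (h4.div t1 p1).congr' ?_
      filter_upwards [e1] with s hs
      exact mul_div_cancel_left₀ _ hs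
    · refine (h5.div t2 p2).congr' ?_
      filter_upwards [e2] with s hs
      exact mul_div_cancel_left₀ _ hs
    · rw [h6, mul_pow, div_pow]
      field_simp
  · rintro h Λ ⟨L, hL, hΛ⟩
    obtain ⟨e, he, h1⟩ := h L hL
    refine ⟨e, he, fun τ => ?_⟩
    obtain ⟨a, a', h2, h3, h4, h5, h6⟩ := h1 τ
    have hτ : Λ τ = fun s => gammaFactor M (Fintype.card r) s * L τ s := funext fun s => hΛ τ s
    refine ⟨g ^ Fintype.card r * a, g' ^ Fintype.card r * a', mul_ne_zero p1 h2,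
      mul_ne_zero p2 h3, ?_, ?_, ?_⟩
    · rw [hτ]
      exact t1.mul h4
    · rw [hτ]
      exact t2.mul h5
    · rw [h6, mul_pow, div_pow]
      field_simp

end

section

variable {A : Type} [Field A] [CharZero A] [IsAlgClosed A] [Algebra.IsAlgebraic ℚ A]
  (hD : S_DELTA) {ι : A →+* ℂ} {c : A ≃ₐ[ℚ] A} (hc : IsConj ι c) {F : IntermediateField ℚ A}
  [FiniteDimensional ℚ F] (hF : TotallyImaginary c F) {E : Type} [Field E] {n : ℕ}
  (M : Motive F E n) {E' : Type} [Field E'] [CharZero E'] [Algebra E E'] {r : Type} [Fintype r]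
  [DecidableEq r]

include hD hc hF

/-- the constants over `K` and over `F` -/
theorem const_eq (K : IntermediateField ℚ A) [FiniteDimensional ℚ K] (hFK : F ≤ K) {δ δ' : A}
    (hδ : IsDelta ι c F δ) (hδ' : IsDelta ι c K δ') (k : ℕ) : ∃ q : ℚ, q ≠ 0 ∧
      (Complex.I ^ (Module.finrank ℚ K / 2) * ι δ') ^ k =
        q * (Complex.I ^ (Module.finrank ℚ F / 2) * ι δ) ^
          (k * IntermediateField.relfinrank F K) := by
  obtain ⟨q, hq, h1⟩ := hD A ι c hc F K hFK hF δ δ' hδ hδ'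
  refine ⟨q ^ k, pow_ne_zero _ hq, ?_⟩
  obtain ⟨d, hd⟩ := even_finrank hc F hF
  have h2 : Module.finrank ℚ F / 2 = d := by omega
  have h3 : Module.finrank ℚ K / 2 = d * IntermediateField.relfinrank F K := by
    rw [← IntermediateField.finrank_bot_mul_relfinrank hFK, hd, ← two_mul, mul_assoc,
      Nat.mul_div_cancel_left _ (by norm_num)]
  rw [h2, h3, h1, map_mul, map_pow, mul_comm k, pow_mul (Complex.I ^ d * ι δ), mul_pow, mul_pow,
    mul_pow, ← pow_mul Complex.I]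
  have h4 : ι (algebraMap ℚ A q) = (q : ℂ) := by
    rw [← RingHom.comp_apply]
    exact map_ratCast _ q
  rw [h4]
  push_cast
  ring

/-- Deligne's formula over `K` and over `F` -/
theorem formula_iff (K : IntermediateField ℚ A) [FiniteDimensional ℚ K] (hFK : F ≤ K) (m : ℤ)
    (k : ℕ) (ρ : F.fixingSubgroup →* Matrix r r E') : RatioFormula M ι c m K k ρ ↔
      RatioFormula M ι c m F (k * IntermediateField.relfinrank F K) ρ := by
  constructor
  · intro h Λ hΛ δ hδ
    obtain ⟨δ', hδ'⟩ := exists_delta ι c K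
    obtain ⟨q, hq, h1⟩ := const_eq hD hc hF K hFK hδ hδ' k
    have h2 : RF M m ((Complex.I ^ (Module.finrank ℚ K / 2) * ι δ') ^ k) ρ :=
      fun Λ hΛ => h Λ hΛ δ' hδ'
    have hq' : (q : ℂ) ≠ 0 := Rat.cast_ne_zero.2 hq
    exact h2.congr M q⁻¹ (inv_ne_zero hq) (by
      rw [h1, Rat.cast_inv, inv_mul_cancel_left₀ hq']) Λ hΛ
  · intro h Λ hΛ δ' hδ'
    obtain ⟨δ, hδ⟩ := exists_delta ι c F
    obtain ⟨q, hq, h1⟩ := const_eq hD hc hF K hFK hδ hδ' k
    have h2 : RF M m ((Complex.I ^ (Module.finrank ℚ F / 2) * ι δ) ^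
        (k * IntermediateField.relfinrank F K)) ρ := fun Λ hΛ => h Λ hΛ δ hδ
    exact h2.congr M q hq h1 Λ hΛ

/-- Deligne's formula for `M ⊗ ρ` in terms of the L-functions -/
theorem formula_iff_ratio {m : ℤ} (hm : IsCritical M m) {δ : A} (hδ : IsDelta ι c F δ)
    (ρ : F.fixingSubgroup →* Matrix r r E') :
    RatioFormula M ι c m F (n * Fintype.card r) ρ ↔
      Ratio M.toRealizations ((Complex.I ^ (Module.finrank ℚ F / 2) * ι δ) ^ n *
        (gammaFactor M 1 ((m + 1 : ℤ) : ℂ) / gammaFactor M 1 (m : ℂ)))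
        (m : ℂ) ((m + 1 : ℤ) : ℂ) ρ := by
  rw [← rf_iff M hm]
  have h1 : ((Complex.I ^ (Module.finrank ℚ F / 2) * ι δ) ^ n) ^ Fintype.card r =
      (Complex.I ^ (Module.finrank ℚ F / 2) * ι δ) ^ (n * Fintype.card r) := (pow_mul _ _ _).symm
  rw [h1]
  constructor
  · intro h Λ hΛ
    exact h Λ hΛ δ hδ
  · intro h Λ hΛ δ' hδ'
    obtain ⟨q, hq, h2⟩ := const_eq hD hc hF F le_rfl hδ hδ' (n * Fintype.card r)
    rw [IntermediateField.relfinrank_self, mul_one] at h2
    exact h.congr M q hq h2 Λ hΛ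

end

end Pool.Agent.Helper51K9.TI
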