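import Pool.Agent.Helper51K9.TI.Abs

/-!
# Local factors of direct sums, summands, isomorphic representations; descent of coefficients
-/

set_option autoImplicit false
set_option linter.unusedSectionVars false

namespace Pool.Agent.Helper51K9.TI

open Matrix Polynomial Filter Topology

variable {Γ : Type} [Group Γ]

section

variable {k : Type} [Field k] {m m' m'' : Type} [Fintype m] [Fintype m'] [Fintype m'']

theorem unique_op {B : Γ → Matrix m m k} {I : Subgroup Γ} {φ : Γ}
    {T T' : Module.End k (fixedBy B I)} (h : ∀ v, (T v : m → k) = B φ *ᵥ v)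
    (h' : ∀ v, (T' v : m → k) = B φ *ᵥ v) : T = T' := by
  ext1 v
  apply Subtype.ext
  rw [h, h']

theorem IsCharFactor.unique {B : Γ → Matrix m m k} {I : Subgroup Γ} {φ : Γ} {Q Q' : k[X]}
    (h : IsCharFactor B I φ Q) (h' : IsCharFactor B I φ Q') : Q = Q' := by
  obtain ⟨T, hT, rfl⟩ := h
  obtain ⟨T', hT', rfl⟩ := h'
  rw [unique_op hT hT']

theorem reverse_ne {K : Type} [Field K] {p : K[X]} (hp : p.Monic) : p.reverse ≠ 0 := by
  intro h
  rw [Polynomial.reverse_eq_zero] at h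
  exact hp.ne_zero h

theorem IsCharFactor.ne_zero {B : Γ → Matrix m m k} {I : Subgroup Γ} {φ : Γ} {Q : k[X]}
    (h : IsCharFactor B I φ Q) : Q ≠ 0 := by
  obtain ⟨T, hT, rfl⟩ := h
  exact reverse_ne (LinearMap.charpoly_monic _)

/-- the isomorphism of the invariants -/
def fixedEquiv {B : Γ → Matrix m m k} {B' : Γ → Matrix m' m' k} (e : (m → k) ≃ₗ[k] (m' → k))
    (he : ∀ σ v, e (B σ *ᵥ v) = B' σ *ᵥ e v) (I : Subgroup Γ) : fixedBy B I ≃ₗ[k] fixedBy B' I where
  toFun := fun v => ⟨e v, fun σ hσ => by rw [← he, v.2 σ hσ]⟩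
  map_add' := fun v w => Subtype.ext (map_add e _ _)
  map_smul' := fun a v => Subtype.ext (map_smul e a _)
  invFun := fun v => ⟨e.symm v, fun σ hσ => e.injective (by
    rw [he, LinearEquiv.apply_symm_apply, v.2 σ hσ])⟩
  left_inv := fun v => Subtype.ext (e.symm_apply_apply _)
  right_inv := fun v => Subtype.ext (e.apply_symm_apply _)

theorem IsCharFactor.congr {B : Γ → Matrix m m k} {B' : Γ → Matrix m' m' k}
    (e : (m → k) ≃ₗ[k] (m' → k)) (he : ∀ σ v, e (B σ *ᵥ v) = B' σ *ᵥ e v) {I : Subgroup Γ} {φ : Γ}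
    {Q : k[X]} (h : IsCharFactor B I φ Q) : IsCharFactor B' I φ Q := by
  obtain ⟨T, hT, rfl⟩ := h
  let f := fixedEquiv e he I
  refine ⟨f.conj T, fun v => ?_, by rw [LinearEquiv.charpoly_conj]⟩
  rw [LinearEquiv.conj_apply_apply]
  change e (T (f.symm v) : m → k) = _
  rw [hT, he]
  congr 1
  exact e.apply_symm_apply _

/-- the invariants of a direct sum -/
def fixedSplit {B : Γ → Matrix m m k} {B' : Γ → Matrix m' m' k} {B'' : Γ → Matrix m'' m'' k}
    (e : (m'' → k) ≃ₗ[k] (m → k) × (m' → k))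
    (he : ∀ σ v, e (B'' σ *ᵥ v) = (B σ *ᵥ (e v).1, B' σ *ᵥ (e v).2)) (I : Subgroup Γ) :
    fixedBy B'' I ≃ₗ[k] (fixedBy B I × fixedBy B' I) where
  toFun := fun v => (⟨(e v).1, fun σ hσ => by
      have h1 := congrArg Prod.fst (he σ v)
      rw [v.2 σ hσ] at h1
      exact h1.symm⟩,
    ⟨(e v).2, fun σ hσ => by
      have h1 := congrArg Prod.snd (he σ v)
      rw [v.2 σ hσ] at h1
      exact h1.symm⟩)
  map_add' := fun v w => Prod.ext (Subtype.ext (congrArg Prod.fst (map_add e _ _)))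
    (Subtype.ext (congrArg Prod.snd (map_add e _ _)))
  map_smul' := fun a v => Prod.ext (Subtype.ext (congrArg Prod.fst (map_smul e a _)))
    (Subtype.ext (congrArg Prod.snd (map_smul e a _)))
  invFun := fun w => ⟨e.symm (w.1, w.2), fun σ hσ => e.injective (by
    rw [he, LinearEquiv.apply_symm_apply]
    exact Prod.ext (w.1.2 σ hσ) (w.2.2 σ hσ))⟩
  left_inv := fun v => Subtype.ext (e.symm_apply_apply _)
  right_inv := fun w => Prod.ext (Subtype.ext (congrArg Prod.fst (e.apply_symm_apply _)))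
    (Subtype.ext (congrArg Prod.snd (e.apply_symm_apply _)))

section

variable {B : Γ → Matrix m m k} {B' : Γ → Matrix m' m' k} {B'' : Γ → Matrix m'' m'' k}
    (e : (m'' → k) ≃ₗ[k] (m → k) × (m' → k))
    (he : ∀ σ v, e (B'' σ *ᵥ v) = (B σ *ᵥ (e v).1, B' σ *ᵥ (e v).2)) {I : Subgroup Γ} {φ : Γ}

include he

theorem IsCharFactor.mul {Q Q' : k[X]} (h : IsCharFactor B I φ Q) (h' : IsCharFactor B' I φ Q') :
    IsCharFactor B'' I φ (Q * Q') := by
  obtain ⟨T, hT, rfl⟩ := h
  obtain ⟨T', hT', rfl⟩ := h'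
  let f := fixedSplit e he I
  refine ⟨f.symm.conj (T.prodMap T'), fun v => ?_, ?_⟩
  · rw [LinearEquiv.conj_apply_apply]
    apply e.injective
    rw [he]
    have h1 : e ((f.symm ((T.prodMap T') (f.symm.symm v)) : fixedBy B'' I) : m'' → k) =
        ((T (f v).1 : m → k), (T' (f v).2 : m' → k)) := e.apply_symm_apply _
    rw [h1, hT, hT']
    rfl
  · rw [LinearEquiv.charpoly_conj, LinearMap.charpoly_prodMap, Polynomial.reverse_mul_of_domain]

theorem IsCharFactor.div {Q' Q'' : k[X]} (h : IsCharFactor B'' I φ Q'') (h' : IsCharFactor B' I φ Q') :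
    ∃ Q, IsCharFactor B I φ Q ∧ Q'' = Q * Q' := by
  obtain ⟨T, hT, rfl⟩ := h
  obtain ⟨T', hT', rfl⟩ := h'
  let f := fixedSplit e he I
  let T₁ : Module.End k (fixedBy B I) :=
    (LinearMap.fst _ _ _).comp (f.toLinearMap.comp (T.comp (f.symm.toLinearMap.comp
      (LinearMap.inl k _ _))))
  have hT₁ : ∀ v, (T₁ v : m → k) = B φ *ᵥ v := by
    intro v
    change (e (T (f.symm (v, 0)) : m'' → k)).1 = _
    rw [hT, he]
    have h1 : e ((f.symm (v, 0) : fixedBy B'' I) : m'' → k) = ((v : m → k), 0) :=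
      e.apply_symm_apply _
    rw [h1]
  have hTT : T = f.symm.conj (T₁.prodMap T') := by
    ext1 v
    apply Subtype.ext
    rw [hT, LinearEquiv.conj_apply_apply]
    apply e.injective
    rw [he]
    have h1 : e ((f.symm ((T₁.prodMap T') (f.symm.symm v)) : fixedBy B'' I) : m'' → k) =
        ((T₁ (f v).1 : m → k), (T' (f v).2 : m' → k)) := e.apply_symm_apply _
    rw [h1, hT₁, hT']
    rfl
  refine ⟨_, ⟨T₁, hT₁, rfl⟩, ?_⟩
  rw [← Polynomial.reverse_mul_of_domain, ← LinearMap.charpoly_prodMap,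
    ← LinearEquiv.charpoly_conj f.symm (T₁.prodMap T'), ← hTT]

end

end

section

variable {E' : Type} [Field E'] {r r' : Type} [Fintype r] [DecidableEq r] [Fintype r']
  [DecidableEq r']

/-- the direct sum of two representations -/
def dsum (ρ : Γ →* Matrix r r E') (ρ' : Γ →* Matrix r' r' E') :
    Γ →* Matrix (r ⊕ r') (r ⊕ r') E' where
  toFun γ := fromBlocks (ρ γ) 0 0 (ρ' γ)
  map_one' := by rw [map_one, map_one, fromBlocks_one]
  map_mul' γ γ' := by rw [map_mul, map_mul, fromBlocks_multiply]; simp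

theorem dsum_apply (ρ : Γ →* Matrix r r E') (ρ' : Γ →* Matrix r' r' E') (γ : Γ) :
    dsum ρ ρ' γ = fromBlocks (ρ γ) 0 0 (ρ' γ) := rfl

theorem trace_dsum (ρ : Γ →* Matrix r r E') (ρ' : Γ →* Matrix r' r' E') (γ : Γ) :
    (dsum ρ ρ' γ).trace = (ρ γ).trace + (ρ' γ).trace := by
  rw [dsum_apply, Matrix.trace, Fintype.sum_sum_type]
  rfl

/-- the two components of a vector -/
def vecSplit (K : Type) [Field K] (a r r' : Type) :
    (a × (r ⊕ r') → K) ≃ₗ[K] (a × r → K) × (a × r' → K) where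
  toFun := fun v => (fun x => v (x.1, Sum.inl x.2), fun x => v (x.1, Sum.inr x.2))
  map_add' := fun v w => rfl
  map_smul' := fun a v => rfl
  invFun := fun w x => Sum.elim (fun a => w.1 (x.1, a)) (fun a => w.2 (x.1, a)) x.2
  left_inv := fun v => by
    funext x
    obtain ⟨i, a | a⟩ := x
    · rfl
    · rfl
  right_inv := fun w => rfl

variable {E : Type} [Field E] {n : ℕ} {P : Type} (M : Realizations Γ E n P) [Algebra E E']

theorem twist_split (ρ : Γ →* Matrix r r E') (ρ' : Γ →* Matrix r' r' E') (v : P)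
    (j : E' →+* M.K v) (σ : Γ) (x : Fin n × (r ⊕ r') → M.K v) :
    vecSplit (M.K v) (Fin n) r r' (twist M (dsum ρ ρ') v j σ *ᵥ x) =
      (twist M ρ v j σ *ᵥ (vecSplit (M.K v) (Fin n) r r' x).1,
        twist M ρ' v j σ *ᵥ (vecSplit (M.K v) (Fin n) r r' x).2) := by
  apply Prod.ext
  · funext ⟨i, a⟩
    change (twist M (dsum ρ ρ') v j σ *ᵥ x) (i, Sum.inl a) =
      (twist M ρ v j σ *ᵥ fun y => x (y.1, Sum.inl y.2)) (i, a)
    simp only [twist, Matrix.mulVec, dotProduct, kroneckerMap_apply, Fintype.sum_prod_type,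
      Fintype.sum_sum_type, dsum, MonoidHom.coe_mk, OneHom.coe_mk, Matrix.map_apply,
      fromBlocks_apply₁₁, fromBlocks_apply₁₂, Matrix.zero_apply, map_zero, mul_zero, zero_mul,
      Finset.sum_const_zero, add_zero]
  · funext ⟨i, a⟩
    change (twist M (dsum ρ ρ') v j σ *ᵥ x) (i, Sum.inr a) =
      (twist M ρ' v j σ *ᵥ fun y => x (y.1, Sum.inr y.2)) (i, a)
    simp only [twist, Matrix.mulVec, dotProduct, kroneckerMap_apply, Fintype.sum_prod_type,
      Fintype.sum_sum_type, dsum, MonoidHom.coe_mk, OneHom.coe_mk, Matrix.map_apply,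
      fromBlocks_apply₂₁, fromBlocks_apply₂₂, Matrix.zero_apply, map_zero, mul_zero, zero_mul,
      Finset.sum_const_zero, zero_add]

theorem IsLocalFactor.mul {ρ : Γ →* Matrix r r E'} {ρ' : Γ →* Matrix r' r' E'} {v : P}
    {Q Q' : E'[X]} (h : IsLocalFactor M ρ v Q) (h' : IsLocalFactor M ρ' v Q') :
    IsLocalFactor M (dsum ρ ρ') v (Q * Q') := by
  intro j hj
  rw [Polynomial.map_mul]
  exact IsCharFactor.mul (vecSplit (M.K v) (Fin n) r r')
    (fun σ x => twist_split M ρ ρ' v j σ x) (h j hj) (h' j hj)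

/-- `1 ⊗ A` -/
def up (v : P) (j : E' →+* M.K v) (A : Matrix r r' E') :
    Matrix (Fin n × r) (Fin n × r') (M.K v) :=
  kroneckerMap (· * ·) (1 : Matrix (Fin n) (Fin n) (M.K v)) (A.map j)

theorem up_comm (ρ : Γ →* Matrix r r E') (ρ' : Γ →* Matrix r' r' E') (A : Matrix r r' E')
    (hA : ∀ γ, ρ γ * A = A * ρ' γ) (v : P) (j : E' →+* M.K v) (σ : Γ) :
    twist M ρ v j σ * up M v j A = up M v j A * twist M ρ' v j σ := by
  unfold twist up
  rw [← Matrix.mul_kronecker_mul, ← Matrix.mul_kronecker_mul, Matrix.mul_one, Matrix.one_mul,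
    ← Matrix.map_mul, ← Matrix.map_mul, hA]

theorem up_mul (A : Matrix r r' E') (B : Matrix r' r E') (h : A * B = 1) (v : P)
    (j : E' →+* M.K v) : up M v j A * up M v j B = 1 := by
  unfold up
  rw [← Matrix.mul_kronecker_mul, Matrix.mul_one, ← Matrix.map_mul, h,
    Matrix.map_one _ (map_zero j) (map_one j)]
  exact Matrix.one_kronecker_one

theorem IsLocalFactor.iso {ρ : Γ →* Matrix r r E'} {ρ' : Γ →* Matrix r' r' E'}
    {A : Matrix r r' E'} {B : Matrix r' r E'} (hAB : A * B = 1) (hBA : B * A = 1)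
    (hA : ∀ γ, ρ γ * A = A * ρ' γ) {v : P} {Q : E'[X]} (h : IsLocalFactor M ρ' v Q) :
    IsLocalFactor M ρ v Q := by
  intro j hj
  let e : (Fin n × r' → M.K v) ≃ₗ[M.K v] (Fin n × r → M.K v) :=
    { toFun := fun x => up M v j A *ᵥ x
      map_add' := fun x y => Matrix.mulVec_add _ _ _
      map_smul' := fun a x => Matrix.mulVec_smul _ _ _
      invFun := fun x => up M v j B *ᵥ x
      left_inv := fun x => by
        change up M v j B *ᵥ (up M v j A *ᵥ x) = x
        rw [Matrix.mulVec_mulVec, up_mul M B A hBA, Matrix.one_mulVec]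
      right_inv := fun x => by
        change up M v j A *ᵥ (up M v j B *ᵥ x) = x
        rw [Matrix.mulVec_mulVec, up_mul M A B hAB, Matrix.one_mulVec] }
  exact IsCharFactor.congr e (fun σ x => by
    change up M v j A *ᵥ (_ *ᵥ x) = _ *ᵥ (up M v j A *ᵥ x)
    rw [Matrix.mulVec_mulVec, Matrix.mulVec_mulVec, up_comm M ρ ρ' A hA]) (h j hj)

/-- an embedding over the given one -/
theorem exists_j (E' : Type) [Field E'] [Algebra E E'] [Algebra.IsAlgebraic E E'] (v : P) :
    ∃ j : E' →+* M.K v, j.comp (algebraMap E E') = M.coeff v := by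
  let _ : Algebra E (M.K v) := (M.coeff v).toAlgebra
  let j : E' →ₐ[E] M.K v := IsAlgClosed.lift
  exact ⟨j, RingHom.ext fun x => j.commutes x⟩

theorem IsLocalFactor.unique [Algebra.IsAlgebraic E E'] {ρ : Γ →* Matrix r r E'} {v : P}
    {Q Q' : E'[X]} (h : IsLocalFactor M ρ v Q) (h' : IsLocalFactor M ρ v Q') : Q = Q' := by
  obtain ⟨j, hj⟩ := exists_j M E' v
  exact Polynomial.map_injective j j.injective ((h j hj).unique (h' j hj))

/-- local factors of a summand -/
theorem IsLocalFactor.div [Algebra.IsAlgebraic E E'] {ρ : Γ →* Matrix r r E'}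
    {ρ' : Γ →* Matrix r' r' E'} {v : P} {Q₁ Q₂ : E'[X]}
    (h₁ : IsLocalFactor M (dsum ρ ρ') v Q₁) (h₂ : IsLocalFactor M ρ' v Q₂) :
    ∃ Q : E'[X], IsLocalFactor M ρ v Q ∧ Q₁ = Q * Q₂ := by
  have key : ∀ j : E' →+* M.K v, j.comp (algebraMap E E') = M.coeff v →
      ∃ R, IsCharFactor (twist M ρ v j) (M.inertia v) (M.frob v) R ∧ Q₁.map j = R * Q₂.map j :=
    fun j hj => IsCharFactor.div (vecSplit (M.K v) (Fin n) r r')
      (fun σ x => twist_split M ρ ρ' v j σ x) (h₁ j hj) (h₂ j hj)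
  obtain ⟨j₀, hj₀⟩ := exists_j M E' v
  obtain ⟨R, -, h1⟩ := key j₀ hj₀
  have hdvd : Q₂ ∣ Q₁ := by
    rw [← Polynomial.map_dvd_map' j₀, h1]
    exact Dvd.intro_left _ rfl
  obtain ⟨Q, rfl⟩ := hdvd
  refine ⟨Q, fun j hj => ?_, mul_comm _ _⟩
  obtain ⟨R', hR, h3⟩ := key j hj
  rw [Polynomial.map_mul, mul_comm] at h3
  rwa [mul_right_cancel₀ (h₂ j hj).ne_zero h3]

end

/-- elements with one conjugate -/
theorem mem_of_conj {k l K : Type} [Field k] [Field l] [Field K] [IsAlgClosed K] [CharZero k]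
    [Algebra k l] [Algebra k K] [Algebra.IsAlgebraic k l] (x : l) (y : K)
    (h : ∀ j : l →ₐ[k] K, j x = y) : ∃ a : k, algebraMap k l a = x := by
  have hint : IsIntegral k x := Algebra.IsIntegral.isIntegral x
  have h1 : (minpoly k x).rootSet K ⊆ {y} := by
    rw [← Algebra.IsAlgebraic.range_eval_eq_rootSet_minpoly K x]
    rintro _ ⟨j, rfl⟩
    exact h j
  have hsep : (minpoly k x).Separable := (minpoly.irreducible hint).separable
  have h2 : Fintype.card ((minpoly k x).rootSet K) = (minpoly k x).natDegree :=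
    Polynomial.card_rootSet_eq_natDegree hsep (IsAlgClosed.splits _)
  have h3 : Fintype.card ((minpoly k x).rootSet K) ≤ 1 := by
    rw [Fintype.card_le_one_iff]
    intro a b
    apply Subtype.ext
    rw [Set.mem_singleton_iff.1 (h1 a.2), Set.mem_singleton_iff.1 (h1 b.2)]
  have h4 : (minpoly k x).natDegree = 1 :=
    le_antisymm (h2 ▸ h3) (minpoly.natDegree_pos hint)
  exact minpoly.mem_range_of_degree_eq_one k x
    ((Polynomial.degree_eq_iff_natDegree_eq (minpoly.ne_zero hint)).2 h4)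

/-- extension of embeddings -/
theorem exists_ext (k l K : Type) [Field k] [Field l] [Field K] [IsAlgClosed K] [Algebra k l]
    [Algebra.IsAlgebraic k l] (τ : k →+* K) : ∃ τ' : l →+* K, τ'.comp (algebraMap k l) = τ := by
  let _ : Algebra k K := τ.toAlgebra
  let j : l →ₐ[k] K := IsAlgClosed.lift
  exact ⟨j, RingHom.ext fun x => j.commutes x⟩

section

variable {E : Type} [Field E] {n : ℕ} {P : Type} (M : Realizations Γ E n P) {E' : Type} [Field E']
  [CharZero E'] [Algebra E E'] [Algebra.IsAlgebraic E E'] (E'' : Type) [Field E''] [Algebra E E'']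
  [Algebra E' E''] [IsScalarTower E E' E''] [Algebra.IsAlgebraic E' E''] {r : Type} [Fintype r]
  [DecidableEq r] (ρ : Γ →* Matrix r r E')

/-- the representation over the larger field -/
def baseRep : Γ →* Matrix r r E'' := (algebraMap E' E'').mapMatrix.toMonoidHom.comp ρ

omit [CharZero E'] [Algebra.IsAlgebraic E' E''] [Algebra.IsAlgebraic E E'] in
theorem twist_base (v : P) (σ : Γ) (j : E'' →+* M.K v) :
    twist M (baseRep E'' ρ) v j σ = twist M ρ v (j.comp (algebraMap E' E'')) σ := by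
  ext a b
  rfl

omit [CharZero E'] [Algebra.IsAlgebraic E' E''] [Algebra.IsAlgebraic E E'] in
theorem isFactor_base {v : P} {Q : E'[X]} (h : IsLocalFactor M ρ v Q) :
    IsLocalFactor M (baseRep E'' ρ) v (Q.map (algebraMap E' E'')) := by
  intro j hj
  have h1 : (j.comp (algebraMap E' E'')).comp (algebraMap E E') = M.coeff v := by
    rw [RingHom.comp_assoc, ← IsScalarTower.algebraMap_eq E E' E'', hj]
  have h2 : twist M (baseRep E'' ρ) v j = twist M ρ v (j.comp (algebraMap E' E'')) :=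
    funext fun σ => twist_base M E'' ρ v σ j
  rw [Polynomial.map_map, h2]
  exact h _ h1

/-- local factors have coefficients in the smaller field -/
theorem factor_desc (v : P) {Q : E''[X]} (h : IsLocalFactor M (baseRep E'' ρ) v Q) :
    ∃ Q₀ : E'[X], Q₀.map (algebraMap E' E'') = Q ∧ IsLocalFactor M ρ v Q₀ := by
  have hext := fun j₀ : E' →+* M.K v => exists_ext E' E'' (M.K v) j₀
  have hj'' : ∀ (j₀ : E' →+* M.K v) (j : E'' →+* M.K v), j₀.comp (algebraMap E E') = M.coeff v →
      j.comp (algebraMap E' E'') = j₀ → j.comp (algebraMap E E'') = M.coeff v := by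
    intro j₀ j h1 h2
    rw [IsScalarTower.algebraMap_eq E E' E'', ← RingHom.comp_assoc, h2, h1]
  have htw : ∀ j : E'' →+* M.K v,
      twist M (baseRep E'' ρ) v j = twist M ρ v (j.comp (algebraMap E' E'')) :=
    fun j => funext fun σ => twist_base M E'' ρ v σ j
  have hagree : ∀ (j j' : E'' →+* M.K v), j.comp (algebraMap E E'') = M.coeff v →
      j.comp (algebraMap E' E'') = j'.comp (algebraMap E' E'') → Q.map j = Q.map j' := by
    intro j j' h1 h2
    have h1' : j'.comp (algebraMap E E'') = M.coeff v := by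
      rw [IsScalarTower.algebraMap_eq E E' E'', ← RingHom.comp_assoc, ← h2, RingHom.comp_assoc,
        ← IsScalarTower.algebraMap_eq E E' E'', h1]
    have k1 := h j h1
    have k2 := h j' h1'
    have h3 : twist M (baseRep E'' ρ) v j = twist M (baseRep E'' ρ) v j' := by
      rw [htw, htw, h2]
    rw [h3] at k1
    exact k1.unique k2
  obtain ⟨j₀, hj₀⟩ := exists_j M E' v
  obtain ⟨j₁, hj₁⟩ := hext j₀
  have hcoef : ∀ i, ∃ a : E', algebraMap E' E'' a = Q.coeff i := by
    intro i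
    let _ : Algebra E' (M.K v) := j₀.toAlgebra
    refine mem_of_conj (K := M.K v) (Q.coeff i) (j₁ (Q.coeff i)) fun j => ?_
    have h1 : (j : E'' →+* M.K v).comp (algebraMap E' E'') = j₀ :=
      RingHom.ext fun x => j.commutes x
    have h2 := hagree (j : E'' →+* M.K v) j₁ (hj'' j₀ _ hj₀ h1) (by rw [h1, hj₁])
    have h3 := congrArg (fun P => Polynomial.coeff P i) h2
    simp only [Polynomial.coeff_map] at h3
    exact h3
  have hQ : Q ∈ Polynomial.lifts (algebraMap E' E'') := by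
    rw [Polynomial.lifts_iff_coeff_lifts]
    intro i
    exact hcoef i
  obtain ⟨Q₀, hQ₀⟩ := (Polynomial.mem_lifts Q).1 hQ
  refine ⟨Q₀, hQ₀, fun j hj => ?_⟩
  obtain ⟨j', hj'⟩ := hext j
  have h1 := h j' (hj'' j j' hj hj')
  subst hj'
  rw [← hQ₀, Polynomial.map_map, htw] at h1
  exact h1

end

end Pool.Agent.Helper51K9.TI
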