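import Mathlib

/-!
# Compatible systems, their Artin twists and L-functions, for an abstract group
-/

set_option autoImplicit false

namespace Pool.Agent.Helper51K9.TI

open Matrix Polynomial Filter Topology

/-- The local data of a compatible system of `λ`-adic representations of the group `Γ`, of rank `n`
and with coefficients in `E`: for every place `v` a representation over an algebraically closed field
that contains `E` (`λ` does not divide `v`), an inertia group, a geometric Frobenius element, and the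
norm of `v`. -/
structure Realizations (Γ : Type) [Group Γ] (E : Type) [Field E] (n : ℕ) (P : Type) where
  K : P → Type
  field : ∀ v, Field (K v)
  closed : ∀ v, IsAlgClosed (K v)
  coeff : ∀ v, E →+* K v
  rep : ∀ v, Γ →* Matrix (Fin n) (Fin n) (K v)
  inertia : P → Subgroup Γ
  frob : P → Γ
  norm : P → ℕ

attribute [instance] Realizations.field Realizations.closed

section

variable {Γ : Type} [Group Γ]

/-- the vectors fixed by `I` -/
def fixedBy {k m : Type} [Field k] [Fintype m] (B : Γ → Matrix m m k) (I : Subgroup Γ) :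
    Submodule k (m → k) where
  carrier := {v | ∀ σ ∈ I, B σ *ᵥ v = v}
  add_mem' {v w} hv hw σ hσ := by rw [mulVec_add, hv σ hσ, hw σ hσ]
  zero_mem' σ _ := mulVec_zero _
  smul_mem' a v hv σ hσ := by rw [mulVec_smul, hv σ hσ]

/-- `Q` is `det(1 - T φ)` on the vectors fixed by `I` -/
def IsCharFactor {k m : Type} [Field k] [Fintype m] (B : Γ → Matrix m m k) (I : Subgroup Γ) (φ : Γ)
    (Q : k[X]) : Prop :=
  ∃ T : Module.End k (fixedBy B I), (∀ v, (T v : m → k) = B φ *ᵥ v) ∧ Q = T.charpoly.reverse

variable {E : Type} [Field E] {n : ℕ} {P : Type} (M : Realizations Γ E n P) {E' : Type} [Field E']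
  [Algebra E E'] {r : Type} [Fintype r] [DecidableEq r]

/-- the action on the `λ`-adic realization of `M ⊗ ρ` at the place `v` -/
def twist (ρ : Γ →* Matrix r r E') (v : P) (j : E' →+* M.K v) (σ : Γ) :
    Matrix (Fin n × r) (Fin n × r) (M.K v) :=
  kroneckerMap (· * ·) (M.rep v σ) ((ρ σ).map j)

/-- `Q` is the local factor `det(1 - Frob T)` of `M ⊗ ρ` on the inertia invariants at `v` (its
coefficients are in `E'`, and it does not depend on the extension of the place of `E` to `E'`) -/
def IsLocalFactor (ρ : Γ →* Matrix r r E') (v : P) (Q : E'[X]) : Prop :=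
  ∀ j : E' →+* M.K v, j.comp (algebraMap E E') = M.coeff v →
    IsCharFactor (twist M ρ v j) (M.inertia v) (M.frob v) (Q.map j)

/-- `L τ` is the L-function of `M ⊗ ρ` for the embedding `τ` of the coefficients: a meromorphic
function on the complex plane, equal to the Euler product for large real part -/
def IsLFunction (ρ : Γ →* Matrix r r E') (L : (E' →+* ℂ) → ℂ → ℂ) : Prop :=
  ∃ Q : P → E'[X], (∀ v, IsLocalFactor M ρ v (Q v)) ∧
    ∀ τ : E' →+* ℂ, MeromorphicOn (L τ) Set.univ ∧ ∃ b : ℝ, ∀ s : ℂ, b < s.re →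
      HasProd (fun v : P => (((Q v).map τ).eval ((M.norm v : ℂ) ^ (-s)))⁻¹) (L τ s)

/-- the L-functions of `M ⊗ ρ` exist: they are meromorphic on the complex plane, equal to the Euler
products in a right half plane, and have no zeros in a right half plane -/
def HasL (ρ : Γ →* Matrix r r E') : Prop :=
  ∃ L, IsLFunction M ρ L ∧ ∀ τ, ∃ b : ℝ, ∀ s : ℂ, b < s.re → L τ s ≠ 0

end

section

variable {Γ : Type} [Group Γ] {E' : Type} [Field E'] (U : Subgroup Γ)

open Classical in
/-- the matrices of the representation induced from the character `ψ` of the subgroup `U` -/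
noncomputable def inducedMatrix (ψ : U →* E'ˣ) (γ : Γ) : Matrix (Γ ⧸ U) (Γ ⧸ U) E' :=
  Matrix.of fun x y => if h : x.out⁻¹ * γ * y.out ∈ U then ((ψ ⟨_, h⟩ : E'ˣ) : E') else 0

theorem mem_iff (x y : Γ ⧸ U) (γ : Γ) : x.out⁻¹ * γ * y.out ∈ U ↔ γ • y = x := by
  have h1 : γ • y = ((γ * y.out : Γ) : Γ ⧸ U) := by
    conv_lhs => rw [← QuotientGroup.out_eq' y]
    rfl
  have h2 : x = ((x.out : Γ) : Γ ⧸ U) := (QuotientGroup.out_eq' x).symm
  rw [h1, eq_comm, h2, QuotientGroup.eq, ← h2, mul_assoc]

theorem inducedMatrix_one [DecidableEq (Γ ⧸ U)] (ψ : U →* E'ˣ) : inducedMatrix U ψ 1 = 1 := by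
  ext x y
  rw [inducedMatrix, Matrix.of_apply]
  by_cases h : x = y
  · subst h
    have h1 : x.out⁻¹ * 1 * x.out = (1 : Γ) := by group
    rw [Matrix.one_apply_eq, dif_pos (by rw [h1]; exact one_mem _)]
    have h2 : (⟨x.out⁻¹ * 1 * x.out, by rw [h1]; exact one_mem _⟩ : U) = 1 := Subtype.ext h1
    rw [h2, map_one, Units.val_one]
  · rw [Matrix.one_apply_ne h, dif_neg]
    intro h1
    rw [mem_iff, one_smul] at h1
    exact h h1.symm

theorem inducedMatrix_mul [Fintype (Γ ⧸ U)] (ψ : U →* E'ˣ) (γ γ' : Γ) :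
    inducedMatrix U ψ (γ * γ') = inducedMatrix U ψ γ * inducedMatrix U ψ γ' := by
  classical
  ext x y
  rw [Matrix.mul_apply]
  let z : Γ ⧸ U := γ' • y
  have h1 : z.out⁻¹ * γ' * y.out ∈ U := (mem_iff U z y γ').mpr rfl
  rw [Finset.sum_eq_single z]
  · simp only [inducedMatrix, Matrix.of_apply]
    rw [dif_pos h1]
    by_cases h : x.out⁻¹ * γ * z.out ∈ U
    · have h2 : x.out⁻¹ * (γ * γ') * y.out ∈ U := by
        have h3 := U.mul_mem h h1
        convert h3 using 1
        group
      rw [dif_pos h, dif_pos h2, ← Units.val_mul, ← map_mul]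
      congr 2
      apply Subtype.ext
      change x.out⁻¹ * (γ * γ') * y.out = (x.out⁻¹ * γ * z.out) * (z.out⁻¹ * γ' * y.out)
      group
    · rw [dif_neg h, zero_mul, dif_neg]
      intro h2
      apply h
      have h3 := U.mul_mem h2 (U.inv_mem h1)
      convert h3 using 1
      group
  · intro w _ hne
    have h2 : ¬ w.out⁻¹ * γ' * y.out ∈ U := by
      intro h3
      rw [mem_iff] at h3
      exact hne h3.symm
    have h4 : inducedMatrix U ψ γ' w y = 0 := by
      rw [inducedMatrix, Matrix.of_apply, dif_neg h2]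
    rw [h4, mul_zero]
  · intro h
    exact absurd (Finset.mem_univ _) h

/-- the representation induced from the character `ψ` of the subgroup `U` of finite index, in a basis
indexed by the cosets of `U` -/
noncomputable def induced [Fintype (Γ ⧸ U)] [DecidableEq (Γ ⧸ U)] (ψ : U →* E'ˣ) :
    Γ →* Matrix (Γ ⧸ U) (Γ ⧸ U) E' where
  toFun := inducedMatrix U ψ
  map_one' := inducedMatrix_one U ψ
  map_mul' := inducedMatrix_mul U ψ

end

end Pool.Agent.Helper51K9.TI
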