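import Mathlib

/-!
# Totally imaginary fields and the number `Δ_F`: definitions and the statement of the leaf [DELTA]

`A` is an algebraic closure of `ℚ`.
-/

set_option autoImplicit false

namespace Pool.Agent.Helper51K9.TI

section

variable {A : Type} [Field A] [CharZero A]

/-- `c` is the complex conjugation of `A` for the embedding `ι` -/
def IsConj (ι : A →+* ℂ) (c : A ≃ₐ[ℚ] A) : Prop := ∀ x, ι (c x) = starRingEnd ℂ (ι x)

/-- `F` is totally imaginary: it is not fixed by a conjugate of `c` -/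
def TotallyImaginary (c : A ≃ₐ[ℚ] A) (F : IntermediateField ℚ A) : Prop :=
  ∀ g : A ≃ₐ[ℚ] A, g * c * g⁻¹ ∉ F.fixingSubgroup

/-- the maximal totally real subfield `F₀` of `F`: the elements of `F` all of whose conjugates are
real -/
def maxReal (c : A ≃ₐ[ℚ] A) (F : IntermediateField ℚ A) : IntermediateField ℚ A where
  carrier := {x | x ∈ F ∧ ∀ g : A ≃ₐ[ℚ] A, c (g x) = g x}
  mul_mem' := by
    rintro x y ⟨hx, hx'⟩ ⟨hy, hy'⟩
    exact ⟨F.mul_mem hx hy, fun g => by rw [map_mul, map_mul, hx', hy']⟩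
  add_mem' := by
    rintro x y ⟨hx, hx'⟩ ⟨hy, hy'⟩
    exact ⟨F.add_mem hx hy, fun g => by rw [map_add, map_add, hx', hy']⟩
  algebraMap_mem' := fun r => ⟨F.algebraMap_mem r, fun g => by
    rw [AlgEquiv.commutes, AlgEquiv.commutes]⟩
  inv_mem' := by
    rintro x ⟨hx, hx'⟩
    exact ⟨F.inv_mem hx, fun g => by rw [map_inv₀, map_inv₀, hx']⟩

/-- `D ∈ F₀` is totally negative and has the square root `x` in `F`: then `F₀(x)` is the maximal CM
subfield of `F` -/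
def IsCM (ι : A →+* ℂ) (c : A ≃ₐ[ℚ] A) (F : IntermediateField ℚ A) (D : maxReal c F) (x : A) :
    Prop :=
  x ∈ F ∧ x ^ 2 = D ∧ ∀ g : A ≃ₐ[ℚ] A, (ι (g D)).re < 0

/-- `δ` is (a choice of) the number `Δ_F`: if `F` has a CM subfield, the maximal one being
`F₁ = F₀(√D)`, then `Δ_F = √N(D) ^ [F : F₁]`, `N` the norm from `F₀` to `ℚ`; otherwise `Δ_F = 1` -/
def IsDelta (ι : A →+* ℂ) (c : A ≃ₐ[ℚ] A) (F : IntermediateField ℚ A) (δ : A) : Prop :=
  (∃ (D : maxReal c F) (x : A), IsCM ι c F D x ∧ ∃ s : A,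
    s ^ 2 = algebraMap ℚ A (Algebra.norm ℚ D) ∧
    δ = s ^ (IntermediateField.relfinrank (maxReal c F ⊔ IntermediateField.adjoin ℚ {x}) F)) ∨
  ((¬ ∃ (D : maxReal c F) (x : A), IsCM ι c F D x) ∧ δ = 1)

end

/-- [DELTA] `Δ_K = Δ_F ^ [K : F]` up to a rational number -/
def S_DELTA : Prop := ∀ (A : Type) [Field A] [CharZero A] [IsAlgClosed A] [Algebra.IsAlgebraic ℚ A]
  (ι : A →+* ℂ) (c : A ≃ₐ[ℚ] A), IsConj ι c → ∀ (F K : IntermediateField ℚ A)
  [FiniteDimensional ℚ F] [FiniteDimensional ℚ K], F ≤ K → TotallyImaginary c F →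
  ∀ δ δ' : A, IsDelta ι c F δ → IsDelta ι c K δ' →
  ∃ q : ℚ, q ≠ 0 ∧ δ' = algebraMap ℚ A q * δ ^ (IntermediateField.relfinrank F K)

end Pool.Agent.Helper51K9.TI
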