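import Pool.Agent.Helper51K9.TI.Delta

/-!
# The leaf [DELTA]
-/

set_option autoImplicit false

open IntermediateField Module

namespace Pool.Agent.Helper51K9.TI

namespace DL

section field

variable {k A : Type} [Field k] [Field A] [Algebra k A]

/-- the degree of a quadratic extension -/
theorem relfinrank_two {F : IntermediateField k A} {x : A}
    (h : x ^ 2 ∈ F) (hx : x ∉ F) : relfinrank F (F ⊔ adjoin k {x}) = 2 := by
  have h1 : extendScalars (le_sup_left : F ≤ F ⊔ adjoin k {x}) = adjoin F ({x} : Set A) := by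
    apply restrictScalars_injective k
    rw [extendScalars_restrictScalars, restrictScalars_adjoin_eq_sup]
  rw [relfinrank_eq_finrank_of_le le_sup_left, h1]
  have hint : IsIntegral F x := by
    refine ⟨Polynomial.X ^ 2 - Polynomial.C (⟨x ^ 2, h⟩ : F), Polynomial.monic_X_pow_sub_C _ two_ne_zero,
      ?_⟩
    simp
  rw [adjoin.finrank hint]
  apply le_antisymm
  · have h2 : minpoly F x ∣ Polynomial.X ^ 2 - Polynomial.C (⟨x ^ 2, h⟩ : F) := by
      apply minpoly.dvd
      simp
    have h3 := Polynomial.natDegree_le_of_dvd h2 (Polynomial.monic_X_pow_sub_C _ two_ne_zero).ne_zero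
    rwa [Polynomial.natDegree_X_pow_sub_C] at h3
  · rw [minpoly.two_le_natDegree_iff hint]
    rintro ⟨y, rfl⟩
    exact hx y.2


/-- degrees and a Galois extension -/
theorem relfinrank_sup_galois [Normal k A] [Algebra.IsSeparable k A]
    (C K : IntermediateField k A) [FiniteDimensional k C] [FiniteDimensional k K]
    (hC : ∀ (σ : A ≃ₐ[k] A) (x : A), x ∈ C → σ x ∈ C) :
    relfinrank C (K ⊔ C) = relfinrank (K ⊓ C) K := by
  have hCn0 : Normal k C := by
    rw [normal_iff_forall_map_le']
    rintro σ _ ⟨x, hx, rfl⟩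
    exact hC σ x hx
  let M : IntermediateField k A := K ⊓ C
  let C' : IntermediateField M A := extendScalars (inf_le_right : M ≤ C)
  let K' : IntermediateField M A := extendScalars (inf_le_left : M ≤ K)
  have hMA : Normal M A := Normal.tower_top_of_normal k M A
  have hsep : Algebra.IsSeparable M A := Algebra.isSeparable_tower_top_of_isSeparable k M A
  have hsC : Algebra.IsSeparable M C' := Algebra.isSeparable_tower_bot_of_isSeparable M C' A
  have hCn : Normal M C' := by
    rw [normal_iff_forall_map_le]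
    rintro σ _ ⟨x, hx, rfl⟩
    have h1 := (normal_iff_forall_map_le (K := C)).1 inferInstance (σ.restrictScalars k)
    exact h1 ⟨x, hx, rfl⟩
  have hG : IsGalois M C' := ⟨⟩
  have hfC0 : Module.Finite k C' := (inferInstance : Module.Finite k C)
  have hfK0 : Module.Finite k K' := (inferInstance : Module.Finite k K)
  have hfC : FiniteDimensional M C' := Module.Finite.of_restrictScalars_finite k M C'
  have hfK : FiniteDimensional M K' := Module.Finite.of_restrictScalars_finite k M K'
  have hbot : C' ⊓ K' = ⊥ := by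
    rw [eq_bot_iff]
    rintro x ⟨h1, h2⟩
    exact IntermediateField.mem_bot.2 ⟨⟨x, h2, h1⟩, rfl⟩
  have h1 := (LinearDisjoint.of_inf_eq_bot (A := C') (B := K') hbot).finrank_sup
  have h2 : C' ⊔ K' = extendScalars (inf_le_right.trans le_sup_right : M ≤ K ⊔ C) := by
    rw [sup_comm]
    exact extendScalars_sup _ _
  rw [h2] at h1
  have h3 : relfinrank M C = finrank M C' := relfinrank_eq_finrank_of_le _
  have h4 : relfinrank M K = finrank M K' := relfinrank_eq_finrank_of_le _
  have h5 : relfinrank M (K ⊔ C) = finrank M (extendScalars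
    (inf_le_right.trans le_sup_right : M ≤ K ⊔ C)) := relfinrank_eq_finrank_of_le _
  rw [← h3, ← h4, ← h5] at h1
  have h6 := relfinrank_mul_relfinrank (inf_le_right : M ≤ C) (le_sup_right : C ≤ K ⊔ C)
  rw [h1] at h6
  have h7 : 0 < relfinrank M C := by rw [h3]; exact finrank_pos
  exact Nat.eq_of_mul_eq_mul_left h7 h6

/-- normal closures -/
theorem exists_normal [Normal k A] (K : IntermediateField k A) [FiniteDimensional k K] :
    ∃ N : IntermediateField k A, FiniteDimensional k N ∧ K ≤ N ∧
      ∀ (σ : A ≃ₐ[k] A) (x : A), x ∈ N → σ x ∈ N := by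
  refine ⟨normalClosure k K A, inferInstance, le_normalClosure K, fun σ x hx => ?_⟩
  have h1 : Normal k (normalClosure k K A) := inferInstance
  exact (normal_iff_forall_map_le'.1 h1 σ) ⟨x, hx, rfl⟩

/-- degrees are positive -/
theorem relfinrank_pos {E F : IntermediateField k A} (h : E ≤ F) [FiniteDimensional k F] :
    0 < relfinrank E F := by
  rw [relfinrank_eq_finrank_of_le h]
  have h1 : Module.Finite k (extendScalars h) := (inferInstance : Module.Finite k F)
  have h2 : FiniteDimensional E (extendScalars h) := Module.Finite.of_restrictScalars_finite k E _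
  exact finrank_pos

/-- a degree divides another one -/
theorem relfinrank_dvd [Normal k A] [Algebra.IsSeparable k A]
    (C F K : IntermediateField k A) [FiniteDimensional k C] [FiniteDimensional k K]
    (hC : ∀ (σ : A ≃ₐ[k] A) (x : A), x ∈ C → σ x ∈ C) (hFK : F ≤ K) :
    relfinrank (F ⊓ C) F ∣ relfinrank (K ⊓ C) K := by
  have : FiniteDimensional k F := FiniteDimensional.of_injective
    (inclusion hFK).toLinearMap (inclusion_injective hFK)
  rw [← relfinrank_sup_galois C F hC, ← relfinrank_sup_galois C K hC]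
  exact ⟨_, (relfinrank_mul_relfinrank le_sup_right (sup_le_sup_right hFK C)).symm⟩

theorem even_of_inv {S : Type} [Fintype S] (f : S → S) (h : ∀ x, f (f x) = x)
    (h' : ∀ x, f x ≠ x) : Even (Fintype.card S) := by
  have h1 : (∑ _x : S, (1 : ZMod 2)) = 0 :=
    Finset.sum_involution (fun x _ => f x) (fun _ _ => by decide) (fun x _ _ => h' x)
      (fun _ _ => Finset.mem_univ _) (fun x _ => h x)
  rw [Finset.sum_const, Finset.card_univ, nsmul_eq_mul, mul_one] at h1
  exact (ZMod.natCast_eq_zero_iff_even).1 h1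

/-- an involution over the base field which is not the identity on any conjugate of `F` -/
theorem even_of_conj [CharZero k] [IsAlgClosed A] [Algebra.IsAlgebraic k A] (c : A ≃ₐ[k] A)
    (hc : ∀ x, c (c x) = x) {E F : IntermediateField k A} [FiniteDimensional k F] (h : E ≤ F)
    (hcE : ∀ x ∈ E, c x = x)
    (hF : ∀ g : A ≃ₐ[k] A, ∃ x ∈ F, c (g x) ≠ g x) : Even (relfinrank E F) := by
  classical
  rw [relfinrank_eq_finrank_of_le h]
  let F' : IntermediateField E A := extendScalars h
  have hfF0 : Module.Finite k F' := (inferInstance : Module.Finite k F)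
  have hfF : FiniteDimensional E F' := Module.Finite.of_restrictScalars_finite k E F'
  have hsep : Algebra.IsSeparable E F' := inferInstance
  have h1 : Fintype.card (F' →ₐ[E] A) = finrank E F' := AlgHom.card E F' A
  change Even (finrank E F')
  rw [← h1]
  let c' : A →ₐ[E] A :=
    { (c : A →ₐ[k] A).toRingHom with commutes' := fun r => hcE r r.2 }
  have hc' : ∀ x, c' x = c x := fun x => rfl
  refine even_of_inv (fun σ => c'.comp σ) (fun σ => ?_) (fun σ hσ => ?_)
  · apply AlgHom.ext
    intro x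
    change c (c (σ x)) = σ x
    rw [hc]
  · have hA : Algebra.IsAlgebraic E A := inferInstance
    have hN : Normal E A := normal_iff.2 fun x =>
      ⟨(hA.isAlgebraic x).isIntegral, IsAlgClosed.splits _⟩
    let τ : A →ₐ[E] A := σ.liftNormal A
    have hτ : ∀ x : F', τ x = σ x := fun x => AlgHom.liftNormal_commutes σ A x
    let g : A ≃ₐ[E] A := AlgEquiv.ofBijective τ (Algebra.IsAlgebraic.algHom_bijective τ)
    obtain ⟨x, hx, hne⟩ := hF (g.restrictScalars k)
    apply hne
    change c (τ x) = τ x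
    have h2 := hτ ⟨x, hx⟩
    change τ x = _ at h2
    rw [h2]
    exact congrArg (fun f : F' →ₐ[E] A => f ⟨x, hx⟩) hσ

/-- the norm of an element of a subfield -/
theorem norm_up {E L : IntermediateField k A} [FiniteDimensional k L] (h : E ≤ L) {D : A}
    (hD : D ∈ E) : Algebra.norm k (⟨D, h hD⟩ : L) = Algebra.norm k (⟨D, hD⟩ : E) ^ relfinrank E L := by
  let _ : Algebra E L := (inclusion h).toAlgebra
  have hst : IsScalarTower k E L := IsScalarTower.of_algebraMap_eq' rfl
  have hfL : FiniteDimensional E L := Module.Finite.of_restrictScalars_finite k E L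
  have hfE : FiniteDimensional k E := FiniteDimensional.of_injective
    (inclusion h).toLinearMap (inclusion_injective h)
  have hfree : Module.Free E L := Module.Free.of_divisionRing E L
  have hfree' : Module.Free k E := Module.Free.of_divisionRing k E
  have h1 : Algebra.norm k (Algebra.norm E (⟨D, h hD⟩ : L)) = Algebra.norm k (⟨D, h hD⟩ : L) :=
    Algebra.norm_norm
  have h2 : Algebra.norm E (⟨D, h hD⟩ : L) = (⟨D, hD⟩ : E) ^ finrank E L :=
    Algebra.norm_algebraMap (S := L) (⟨D, hD⟩ : E)
  have h3 : relfinrank E L = finrank E L := relfinrank_eq_finrank_of_le h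
  rw [← h1, h2, map_pow, h3]

end field

section basic

variable {A : Type} [Field A] [CharZero A] {ι : A →+* ℂ} {c : A ≃ₐ[ℚ] A}

theorem conj_conj (hc : IsConj ι c) (x : A) : c (c x) = x := by
  apply ι.injective
  rw [hc, hc, Complex.conj_conj]

/-- the elements all of whose conjugates are purely imaginary -/
def Anti (c : A ≃ₐ[ℚ] A) (x : A) : Prop := ∀ g : A ≃ₐ[ℚ] A, c (g x) = - g x

theorem anti_of_cm (hc : IsConj ι c) {F : IntermediateField ℚ A} {D : maxReal c F} {x : A}
    (h : IsCM ι c F D x) : Anti c x := by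
  intro g
  apply ι.injective
  have h1 : ι (g x) ^ 2 = ι (g D) := by rw [← map_pow, ← map_pow, h.2.1]
  have h2 : (ι (g D)).im = 0 := by
    rw [← Complex.conj_eq_iff_im, ← hc, D.2.2 g]
  have h3 := h.2.2 g
  have h4 : (ι (g x)).re = 0 := by
    rw [← h1, sq, Complex.mul_im] at h2
    rw [← h1, sq, Complex.mul_re] at h3
    by_contra h0
    have h5 : (ι (g x)).im = 0 := by
      have h6 : (ι (g x)).re * (ι (g x)).im = 0 := by linarith
      exact (mul_eq_zero.1 h6).resolve_left h0
    rw [h5] at h3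
    nlinarith [sq_nonneg (ι (g x)).re]
  rw [hc, map_neg]
  apply Complex.ext
  · rw [Complex.conj_re, Complex.neg_re, h4, neg_zero]
  · rw [Complex.conj_im, Complex.neg_im]

theorem cm_ne_zero {F : IntermediateField ℚ A} {D : maxReal c F} {x : A}
    (h : IsCM ι c F D x) : x ≠ 0 := by
  rintro rfl
  have h1 := h.2.2 1
  rw [← h.2.1] at h1
  simp at h1

theorem sq_mem {F : IntermediateField ℚ A} {z : A} (hz : z ∈ F) (h : Anti c z) :
    z ^ 2 ∈ maxReal c F :=
  ⟨pow_mem hz 2, fun g => by rw [map_pow, map_pow, h g, neg_sq]⟩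

theorem cm_of_anti (hc : IsConj ι c) {F : IntermediateField ℚ A} {z : A} (hz : z ∈ F)
    (hz0 : z ≠ 0) (h : Anti c z) : IsCM ι c F ⟨z ^ 2, sq_mem hz h⟩ z := by
  refine ⟨hz, rfl, fun g => ?_⟩
  have h1 : ι (g z) ≠ 0 := by
    rw [Ne, map_eq_zero, map_eq_zero]
    exact hz0
  have h2 : (ι (g z)).re = 0 := by
    have h3 := congrArg ι (h g)
    rw [hc, map_neg] at h3
    have h4 := congrArg Complex.re h3
    rw [Complex.conj_re, Complex.neg_re] at h4
    linarith
  change (ι (g (z ^ 2))).re < 0
  rw [map_pow, map_pow, sq, Complex.mul_re, h2, zero_mul, zero_sub, neg_neg_iff_pos]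
  have h3 : (ι (g z)).im ≠ 0 := fun h4 => h1 (Complex.ext h2 h4)
  exact mul_self_pos.2 h3

theorem maxReal_le_self (F : IntermediateField ℚ A) : maxReal c F ≤ F := fun _ h => h.1

theorem maxReal_mono {F K : IntermediateField ℚ A} (h : F ≤ K) : maxReal c F ≤ maxReal c K :=
  fun _ hx => ⟨h hx.1, hx.2⟩

theorem cm_up {F K : IntermediateField ℚ A} (h : F ≤ K) {D : maxReal c F} {x : A}
    (hx : IsCM ι c F D x) : IsCM ι c K ⟨(D : A), maxReal_mono h D.2⟩ x :=
  ⟨h hx.1, hx.2.1, hx.2.2⟩

/-- quotients of purely imaginary numbers -/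
theorem div_mem {F : IntermediateField ℚ A} {x y : A} (hx : x ∈ F) (hy : y ∈ F)
    (hx' : Anti c x) (hy' : Anti c y) : x / y ∈ maxReal c F :=
  ⟨F.div_mem hx hy, fun g => by rw [map_div₀, map_div₀, hx', hy', neg_div_neg_eq]⟩

theorem not_mem_of_anti {F : IntermediateField ℚ A} {x : A} (h0 : x ≠ 0) (h : Anti c x) :
    x ∉ maxReal c F := by
  intro h1
  have h2 := h1.2 1
  rw [h 1, neg_eq_iff_add_eq_zero, ← two_mul, mul_eq_zero] at h2
  rcases h2 with h2 | h2
  · exact two_ne_zero h2
  · exact h0 h2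

/-- the elements of the Galois closure of `K` on which all the conjugates of `c` act in the same
way -/
def cen (c : A ≃ₐ[ℚ] A) (N : IntermediateField ℚ A) : IntermediateField ℚ A where
  carrier := {y | y ∈ N ∧ ∀ g : A ≃ₐ[ℚ] A, c (g y) = g (c y)}
  mul_mem' := by
    rintro x y ⟨hx, hx'⟩ ⟨hy, hy'⟩
    exact ⟨N.mul_mem hx hy, fun g => by simp only [map_mul, hx', hy']⟩
  add_mem' := by
    rintro x y ⟨hx, hx'⟩ ⟨hy, hy'⟩
    exact ⟨N.add_mem hx hy, fun g => by simp only [map_add, hx', hy']⟩
  algebraMap_mem' := fun r => ⟨N.algebraMap_mem r, fun g => by simp only [AlgEquiv.commutes]⟩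
  inv_mem' := by
    rintro x ⟨hx, hx'⟩
    exact ⟨N.inv_mem hx, fun g => by simp only [map_inv₀, hx']⟩

theorem cen_le (N : IntermediateField ℚ A) : cen c N ≤ N := fun _ h => h.1

theorem cen_normal {N : IntermediateField ℚ A}
    (hN : ∀ (σ : A ≃ₐ[ℚ] A) (x : A), x ∈ N → σ x ∈ N) (σ : A ≃ₐ[ℚ] A) (y : A)
    (hy : y ∈ cen c N) : σ y ∈ cen c N := by
  refine ⟨hN σ y hy.1, fun g => ?_⟩
  have h1 := hy.2 (g * σ)
  rw [AlgEquiv.mul_apply, AlgEquiv.mul_apply] at h1
  rw [h1, hy.2 σ]

theorem real_mem_cen {F N : IntermediateField ℚ A} (h : F ≤ N) : maxReal c F ≤ cen c N := by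
  rintro x ⟨hx, hx'⟩
  refine ⟨h hx, fun g => ?_⟩
  have h1 : c x = x := hx' 1
  rw [hx' g, h1]

theorem anti_mem_cen {N : IntermediateField ℚ A} {x : A} (hx : x ∈ N) (h : Anti c x) :
    x ∈ cen c N := by
  refine ⟨hx, fun g => ?_⟩
  have h1 : c x = -x := h 1
  rw [h g, h1, map_neg]

/-- complex conjugation acts on the intersections with the field `cen` -/
theorem conj_mem [IsGalois ℚ A] {F N : IntermediateField ℚ A} {y : A}
    (hy : y ∈ F ⊓ cen c N) : c y ∈ F ⊓ cen c N := by
  rw [← InfiniteGalois.fixedField_fixingSubgroup (F ⊓ cen c N)]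
  rintro ⟨g, hg⟩
  change g (c y) = c y
  have h1 : g y = y := hg ⟨y, hy⟩
  rw [← hy.2.2 g, h1]

theorem sub_anti (hc : IsConj ι c) {N : IntermediateField ℚ A} {y : A} (hy : y ∈ cen c N) :
    Anti c (y - c y) := by
  intro g
  rw [map_sub, map_sub, hy.2 g, ← hy.2 g, conj_conj hc, hy.2 g]
  ring

theorem inf_real [IsGalois ℚ A] (hc : IsConj ι c) {F N : IntermediateField ℚ A} (h : F ≤ N)
    (hF : ¬ ∃ (D : maxReal c F) (x : A), IsCM ι c F D x) : F ⊓ cen c N = maxReal c F := by
  apply le_antisymm
  · intro y hy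
    have h1 := sub_anti hc hy.2
    have h2 : y - c y ∈ F := F.sub_mem hy.1 (conj_mem hy).1
    have h3 : y - c y = 0 := by
      by_contra h4
      exact hF ⟨_, _, cm_of_anti hc h2 h4 h1⟩
    have h4 : c y = y := (sub_eq_zero.1 h3).symm
    refine ⟨hy.1, fun g => ?_⟩
    rw [hy.2.2 g, h4]
  · exact le_inf (maxReal_le_self F) (real_mem_cen h)

theorem inf_cm [IsGalois ℚ A] (hc : IsConj ι c) {K N : IntermediateField ℚ A} (h : K ≤ N)
    {D : maxReal c K} {x : A} (hx : IsCM ι c K D x) :
    K ⊓ cen c N = maxReal c K ⊔ adjoin ℚ {x} := by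
  have hxa := anti_of_cm hc hx
  have hx0 := cm_ne_zero hx
  apply le_antisymm
  · intro y hy
    have h1 := sub_anti hc hy.2
    have h2 : y - c y ∈ K := K.sub_mem hy.1 (conj_mem hy).1
    have h3 : (y - c y) / x ∈ maxReal c K := div_mem h2 hx.1 h1 hxa
    have h4 : y + c y ∈ maxReal c K := by
      refine ⟨K.add_mem hy.1 (conj_mem hy).1, fun g => ?_⟩
      rw [map_add, map_add, hy.2.2 g, ← hy.2.2 g, conj_conj hc, hy.2.2 g]
      ring
    have h5 : x ∈ maxReal c K ⊔ adjoin ℚ {x} :=
      (le_sup_right : adjoin ℚ {x} ≤ _) (subset_adjoin ℚ {x} rfl)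
    have h6 : y = ((y + c y) + (y - c y) / x * x) / 2 := by
      rw [div_mul_cancel₀ _ hx0]
      ring
    rw [h6]
    exact IntermediateField.div_mem _ (add_mem ((le_sup_left : maxReal c K ≤ _) h4)
      (mul_mem ((le_sup_left : maxReal c K ≤ _) h3) h5)) (ofNat_mem _ 2)
  · refine sup_le (le_inf (maxReal_le_self K) (real_mem_cen h)) ?_
    rw [adjoin_le_iff]
    rintro _ rfl
    exact ⟨hx.1, anti_mem_cen (h hx.1) hxa⟩

/-- the degree of a totally imaginary field over its maximal real subfield is even -/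
theorem even_relfinrank [IsAlgClosed A] [Algebra.IsAlgebraic ℚ A] (hc : IsConj ι c)
    {F : IntermediateField ℚ A} [FiniteDimensional ℚ F] (hF : TotallyImaginary c F) :
    Even (relfinrank (maxReal c F) F) := by
  refine even_of_conj c (conj_conj hc) (maxReal_le_self F) (fun x hx => hx.2 1) (fun g => ?_)
  by_contra hcon
  push Not at hcon
  apply hF g⁻¹
  rw [IntermediateField.mem_fixingSubgroup_iff]
  intro x hx
  rw [inv_inv, AlgEquiv.mul_apply, AlgEquiv.mul_apply, hcon x hx, ← AlgEquiv.mul_apply,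
    inv_mul_cancel, AlgEquiv.one_apply]

end basic

end DL

open DL in
/-- [DELTA] `Δ_K = Δ_F ^ [K : F]` up to a rational number -/
theorem delta : S_DELTA := by
  intro A _ _ _ _ ι c hc F K hfF hfK hFK hTI δ δ' hδ hδ'
  have hN : Normal ℚ A := normal_iff.2 fun x =>
    ⟨(Algebra.IsAlgebraic.isAlgebraic (R := ℚ) x).isIntegral, IsAlgClosed.splits _⟩
  have hG : IsGalois ℚ A := ⟨⟩
  rcases hδ with ⟨D, x, hx, s, hs, rfl⟩ | ⟨hno, rfl⟩
  · rcases hδ' with ⟨D', x', hx', s', hs', rfl⟩ | ⟨hno', _⟩
    · -- both fields have CM subfields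
      have hxa := anti_of_cm hc hx
      have hxa' := anti_of_cm hc hx'
      have hx0 := cm_ne_zero hx
      have hx0' := cm_ne_zero hx'
      have ht : x / x' ∈ maxReal c K := div_mem (hFK hx.1) hx'.1 hxa hxa'
      have hfK0 : FiniteDimensional ℚ (maxReal c K) := FiniteDimensional.of_injective
        (inclusion (maxReal_le_self (c := c) K)).toLinearMap
          (inclusion_injective (maxReal_le_self (c := c) K))
      have hDK : (D : A) ∈ maxReal c K := maxReal_mono hFK D.2
      -- the norms
      have h1 : Algebra.norm ℚ (⟨D, hDK⟩ : maxReal c K)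
          = Algebra.norm ℚ D ^ relfinrank (maxReal c F) (maxReal c K) :=
        norm_up (maxReal_mono hFK) D.2
      have h2 : (⟨D, hDK⟩ : maxReal c K) = ⟨x / x', ht⟩ ^ 2 * D' := by
        apply Subtype.ext
        change (D : A) = (x / x') ^ 2 * D'
        rw [← hx.2.1, ← hx'.2.1, div_pow, div_mul_cancel₀ _ (pow_ne_zero 2 hx0')]
      rw [h2, map_mul, map_pow] at h1
      set ν : ℚ := Algebra.norm ℚ (⟨x / x', ht⟩ : maxReal c K) with hν
      have hν0 : ν ≠ 0 := by
        rw [hν]
        refine (Algebra.norm_ne_zero_iff (R := ℚ)).2 ?_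
        intro h0
        exact div_ne_zero hx0 hx0' (congrArg Subtype.val h0)
      set r0 := relfinrank (maxReal c F) (maxReal c K) with hr0
      -- the square roots
      have h3 : (s ^ r0) ^ 2 = (algebraMap ℚ A ν * s') ^ 2 := by
        rw [← pow_mul, mul_comm r0 2, pow_mul, hs, mul_pow, hs', ← RingHom.map_pow, ← h1,
          RingHom.map_mul, RingHom.map_pow]
      have h4 : ∃ e : ℚ, e ≠ 0 ∧ s' = algebraMap ℚ A e * s ^ r0 := by
        have hν0' : algebraMap ℚ A ν ≠ 0 := by
          rw [Ne, map_eq_zero]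
          exact hν0
        rcases sq_eq_sq_iff_eq_or_eq_neg.1 h3 with h4 | h4
        · refine ⟨ν⁻¹, inv_ne_zero hν0, ?_⟩
          rw [h4, map_inv₀, inv_mul_cancel_left₀ hν0']
        · refine ⟨-ν⁻¹, neg_ne_zero.2 (inv_ne_zero hν0), ?_⟩
          rw [h4, map_neg, map_inv₀, neg_mul_neg, inv_mul_cancel_left₀ hν0']
      obtain ⟨e, he0, he⟩ := h4
      -- the degrees
      have hxF : x ^ 2 ∈ maxReal c F := by rw [hx.2.1]; exact D.2
      have hxK : x' ^ 2 ∈ maxReal c K := by rw [hx'.2.1]; exact D'.2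
      have h5 : relfinrank (maxReal c F) (maxReal c F ⊔ adjoin ℚ {x}) = 2 :=
        relfinrank_two hxF (not_mem_of_anti hx0 hxa)
      have h6 : relfinrank (maxReal c K) (maxReal c K ⊔ adjoin ℚ {x'}) = 2 :=
        relfinrank_two hxK (not_mem_of_anti hx0' hxa')
      have h7 : maxReal c F ⊔ adjoin ℚ {x} ≤ maxReal c K ⊔ adjoin ℚ {x'} := by
        refine sup_le ((maxReal_mono hFK).trans le_sup_left) ?_
        rw [adjoin_le_iff, Set.singleton_subset_iff]
        have h8 : x = x / x' * x' := (div_mul_cancel₀ _ hx0').symm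
        rw [SetLike.mem_coe, h8]
        exact mul_mem ((le_sup_left : maxReal c K ≤ _) ht)
          ((le_sup_right : adjoin ℚ {x'} ≤ _) (subset_adjoin ℚ {x'} rfl))
      have h8 : maxReal c K ⊔ adjoin ℚ {x'} ≤ K := by
        refine sup_le (maxReal_le_self K) ?_
        rw [adjoin_le_iff]
        rintro _ rfl
        exact hx'.1
      have h9 : maxReal c F ⊔ adjoin ℚ {x} ≤ F := by
        refine sup_le (maxReal_le_self F) ?_
        rw [adjoin_le_iff]
        rintro _ rfl
        exact hx.1
      have h10 := relfinrank_mul_relfinrank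
        (le_sup_left : maxReal c F ≤ maxReal c F ⊔ adjoin ℚ {x}) h7
      have h11 := relfinrank_mul_relfinrank (maxReal_mono (c := c) hFK)
        (le_sup_left : maxReal c K ≤ maxReal c K ⊔ adjoin ℚ {x'})
      have h12 : relfinrank (maxReal c F ⊔ adjoin ℚ {x}) (maxReal c K ⊔ adjoin ℚ {x'}) = r0 := by
        rw [← h11, h5, h6, mul_comm] at h10
        exact Nat.eq_of_mul_eq_mul_right two_pos h10
      have h13 := relfinrank_mul_relfinrank h7 h8
      have h14 := relfinrank_mul_relfinrank h9 hFK
      rw [h12, ← h14] at h13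
      refine ⟨e ^ relfinrank (maxReal c K ⊔ adjoin ℚ {x'}) K, pow_ne_zero _ he0, ?_⟩
      rw [he, mul_pow, ← pow_mul, h13, pow_mul, map_pow]
    · exact absurd ⟨_, _, cm_up hFK hx⟩ hno'
  · rcases hδ' with ⟨D', x', hx', s', hs', rfl⟩ | ⟨_, rfl⟩
    · -- the degree over the maximal CM subfield is even
      obtain ⟨N, hfN, hKN, hN'⟩ := exists_normal K
      have hfC : FiniteDimensional ℚ (cen c N) := FiniteDimensional.of_injective
        (inclusion (cen_le (c := c) N)).toLinearMap (inclusion_injective (cen_le (c := c) N))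
      have h1 := relfinrank_dvd (cen c N) F K (cen_normal hN') hFK
      rw [inf_real hc (hFK.trans hKN) hno, inf_cm hc hKN hx'] at h1
      obtain ⟨n, hn⟩ := (even_relfinrank hc hTI).two_dvd.trans h1
      refine ⟨Algebra.norm ℚ D' ^ n, ?_, ?_⟩
      · refine pow_ne_zero _ ?_
        have hfK0 : FiniteDimensional ℚ (maxReal c K) := FiniteDimensional.of_injective
          (inclusion (maxReal_le_self (c := c) K)).toLinearMap
            (inclusion_injective (maxReal_le_self (c := c) K))
        refine (Algebra.norm_ne_zero_iff (R := ℚ)).2 ?_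
        rintro rfl
        have h2 := hx'.2.1
        rw [ZeroMemClass.coe_zero] at h2
        exact cm_ne_zero hx' (pow_eq_zero_iff two_ne_zero |>.1 h2)
      · rw [hn, pow_mul, hs', one_pow, mul_one, map_pow]
    · exact ⟨1, one_ne_zero, by rw [one_pow, map_one, mul_one]⟩

end Pool.Agent.Helper51K9.TI
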