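import Pool.Agent.Helper51K9.TI.LF
import Pool.Agent.Helper51K9.RG.Brauer
import Pool.Agent.Helper8K9.DG.Iso

/-!
# From the characters of the nilpotent subgroups to all representations
-/

set_option autoImplicit false
set_option linter.unusedSectionVars false

namespace Pool.Agent.Helper51K9.TI

open Matrix Polynomial Filter Topology Pool.Agent.R389 Pool.Agent.H541R3.ART

/-- the character `ψ ∘ π` of the preimage of `U` -/
def pull {H Γ G : Type} [Group H] [Group Γ] [Group G] (π : Γ →* G) (U : Subgroup G) (ψ : U →* H) :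
    (U.comap π) →* H :=
  ψ.comp ((π.comp (U.comap π).subtype).codRestrict U fun x => Subgroup.mem_comap.mp x.2)

/-- the character of the induced representation -/
theorem trace_induced {E' : Type} [Field E'] [CharZero E'] {Γ G : Type} [Group Γ] [Group G]
    [Finite G] (π : Γ →* G) (hπ : Function.Surjective π) (U : Subgroup G)
    [Fintype (Γ ⧸ U.comap π)] (ψ : U →* E'ˣ) (γ : Γ) :
    (inducedMatrix (U.comap π) (pull π U ψ) γ).trace =
      ind U (fun u => ((ψ u : E'ˣ) : E')) (π γ) := by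
  classical
  have i5 : Fintype G := Fintype.ofFinite _
  have hmem : ∀ δ : Γ, δ ∈ U.comap π ↔ π δ ∈ U := fun δ => Subgroup.mem_comap
  let e : (Γ ⧸ U.comap π) × U → G := fun x => π x.1.out * x.2
  have he : Function.Bijective e := by
    constructor
    · rintro ⟨x, u⟩ ⟨x', u'⟩ h
      change π x.out * u = π x'.out * u' at h
      have h1 : x.out⁻¹ * 1 * x'.out ∈ U.comap π := by
        rw [hmem, mul_one, map_mul, map_inv]
        have h2 : (π x.out)⁻¹ * π x'.out = u * (u' : G)⁻¹ := by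
          rw [eq_mul_inv_iff_mul_eq, mul_assoc, ← h, inv_mul_cancel_left]
        rw [h2]
        exact U.mul_mem u.2 (U.inv_mem u'.2)
      rw [mem_iff, one_smul] at h1
      subst h1
      have h4 : u = u' := Subtype.ext (mul_left_cancel h)
      rw [h4]
    · intro x
      obtain ⟨δ, rfl⟩ := hπ x
      have h1 : ((δ : Γ ⧸ U.comap π)).out⁻¹ * δ ∈ U.comap π := by
        rw [← QuotientGroup.eq, QuotientGroup.out_eq']
      have h2 := (hmem _).mp h1
      refine ⟨((δ : Γ ⧸ U.comap π), ⟨_, h2⟩), ?_⟩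
      change π ((δ : Γ ⧸ U.comap π)).out * π (((δ : Γ ⧸ U.comap π)).out⁻¹ * δ) = π δ
      rw [← map_mul, mul_inv_cancel_left]
  set f : U → E' := fun u => ((ψ u : E'ˣ) : E') with hf
  have hcl : ∀ (g : G) (u : U), ext U f ((u : G)⁻¹ * g * u) = ext U f g := by
    intro g u
    unfold R389.ext
    by_cases hg : g ∈ U
    · have hg' : (u : G)⁻¹ * g * u ∈ U := U.mul_mem (U.mul_mem (U.inv_mem u.2) hg) u.2
      rw [dif_pos hg, dif_pos hg', hf]
      have h1 : (⟨(u : G)⁻¹ * g * u, hg'⟩ : U) = u⁻¹ * ⟨g, hg⟩ * u := rfl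
      simp only [h1, map_mul, map_inv]
      rw [mul_comm, mul_inv_cancel_left]
    · have hg' : ¬ (u : G)⁻¹ * g * u ∈ U := by
        intro h
        apply hg
        have h2 := U.mul_mem (U.mul_mem u.2 h) (U.inv_mem u.2)
        have h3 : (u : G) * ((u : G)⁻¹ * g * u) * (u : G)⁻¹ = g := by group
        rwa [h3] at h2
      rw [dif_neg hg, dif_neg hg']
  have hsum : ∑ x : G, ext U f (x⁻¹ * π γ * x)
      = ∑ x : Γ ⧸ U.comap π, (Nat.card U : E') * ext U f ((π x.out)⁻¹ * π γ * π x.out) := by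
    rw [← (Equiv.ofBijective e he).sum_comp (fun x => ext U f (x⁻¹ * π γ * x)),
      Fintype.sum_prod_type]
    apply Finset.sum_congr rfl
    intro x _
    have h1 : ∀ u : U, ext U f ((Equiv.ofBijective e he (x, u))⁻¹ * π γ
        * Equiv.ofBijective e he (x, u))
        = ext U f ((π x.out)⁻¹ * π γ * π x.out) := by
      intro u
      rw [← hcl ((π x.out)⁻¹ * π γ * π x.out) u]
      congr 1
      change (π x.out * u)⁻¹ * π γ * (π x.out * u) = _
      group
    rw [Finset.sum_congr rfl fun u _ => h1 u, Finset.sum_const, nsmul_eq_mul, Finset.card_univ,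
      Nat.card_eq_fintype_card]
  unfold ind
  rw [finsum_eq_sum_of_fintype, hsum, ← Finset.mul_sum, ← mul_assoc, inv_mul_cancel₀, one_mul]
  · rw [Matrix.trace]
    apply Finset.sum_congr rfl
    intro x _
    rw [Matrix.diag_apply, inducedMatrix, Matrix.of_apply]
    have h2 : (π x.out)⁻¹ * π γ * π x.out = π (x.out⁻¹ * γ * x.out) := by
      rw [map_mul, map_mul, map_inv]
    unfold R389.ext
    by_cases h : x.out⁻¹ * γ * x.out ∈ U.comap π
    · have h' : (π x.out)⁻¹ * π γ * π x.out ∈ U := by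
        rw [h2]
        exact (hmem _).mp h
      rw [dif_pos h, dif_pos h', hf]
      simp only [pull, MonoidHom.comp_apply]
      congr 2
      apply Subtype.ext
      exact h2.symm
    · have h' : ¬ (π x.out)⁻¹ * π γ * π x.out ∈ U := by
        rw [h2]
        exact fun h3 => h ((hmem _).mpr h3)
      rw [dif_neg h, dif_neg h']
  · exact Nat.cast_ne_zero.mpr Nat.card_pos.ne'

/-- the induced representation is trivial on `N` -/
theorem induced_trivial {E' : Type} [Field E'] {Γ : Type} [Group Γ] (N U : Subgroup Γ) [N.Normal]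
    (hNU : N ≤ U) [Fintype (Γ ⧸ U)] [DecidableEq (Γ ⧸ U)] (ψ : U →* E'ˣ)
    (hψ : ∀ γ : U, (γ : Γ) ∈ N → ψ γ = 1) (γ : Γ) (hγ : γ ∈ N) : induced U ψ γ = 1 := by
  have h0 : ∀ x : Γ, x⁻¹ * γ * x ∈ N := fun x => by
    have h1 := Subgroup.Normal.conj_mem (H := N) inferInstance γ hγ x⁻¹
    rwa [inv_inv] at h1
  change inducedMatrix U ψ γ = _
  ext x y
  rw [inducedMatrix, Matrix.of_apply]
  by_cases h : x = y
  · subst h
    rw [Matrix.one_apply_eq, dif_pos (hNU (h0 _)), hψ _ (h0 _), Units.val_one]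
  · rw [Matrix.one_apply_ne h, dif_neg]
    intro h1
    apply h
    have h2 : x.out⁻¹ * 1 * y.out ∈ U := by
      have h3 := U.mul_mem (U.inv_mem (hNU (h0 x.out))) h1
      convert h3 using 1
      group
    rw [mem_iff, one_smul] at h2
    exact h2.symm

/-- a representation of the quotient -/
theorem exists_quotient {E' : Type} [Field E'] {r : Type} [Fintype r] [DecidableEq r]
    {Γ G : Type} [Group Γ] [Group G] {π : Γ →* G} (hπ : Function.Surjective π)
    (ρ : Γ →* Matrix r r E') (h : ∀ γ, π γ = 1 → ρ γ = 1) :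
    ∃ s : G →* Matrix r r E', ∀ γ, s (π γ) = ρ γ := by
  have h1 : ∀ γ δ, π γ = π δ → ρ γ = ρ δ := by
    intro γ δ hγδ
    have h2 : ρ (δ⁻¹ * γ) = 1 := h _ (by rw [map_mul, map_inv, hγδ, inv_mul_cancel])
    have h3 : ρ γ = ρ δ * ρ (δ⁻¹ * γ) := by rw [← map_mul]; congr 1; group
    rw [h3, h2, mul_one]
  choose s hs using hπ
  let t : G →* Matrix r r E' :=
    { toFun := fun g => ρ (s g)
      map_one' := by rw [h1 (s 1) 1 (by rw [hs, map_one]), map_one]
      map_mul' := fun a b => by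
        rw [h1 (s (a * b)) (s a * s b) (by rw [hs, map_mul, hs, hs]), map_mul] }
  exact ⟨t, fun γ => h1 _ _ (hs _)⟩

/-- a representation as a module -/
noncomputable def toRep {E' : Type} [Field E'] {r : Type} [Fintype r] [DecidableEq r]
    {G : Type} [Group G] (s : G →* Matrix r r E') : Representation E' G (r → E') where
  toFun := fun g => Matrix.toLin' (s g)
  map_one' := by
    rw [map_one, Matrix.toLin'_one]
    rfl
  map_mul' := fun a b => by
    rw [map_mul, Matrix.toLin'_mul]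
    rfl

theorem toRep_character {E' : Type} [Field E'] {r : Type} [Fintype r] [DecidableEq r]
    {G : Type} [Group G] (s : G →* Matrix r r E') (g : G) : (toRep s).character g = (s g).trace := by
  change LinearMap.trace E' _ (Matrix.toLin' (s g)) = _
  rw [Matrix.trace_toLin'_eq]

/-- a larger field of coefficients with enough roots of unity -/
theorem exists_field (E E' : Type) [Field E] [Field E'] [NumberField E'] [Algebra E E'] (N : ℕ)
    [NeZero N] : ∃ (E'' : Type) (_ : Field E'') (_ : NumberField E'') (_ : Algebra E E'')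
      (_ : Algebra E' E'') (_ : IsScalarTower E E' E'') (_ : Algebra.IsAlgebraic E' E'')
      (ζ : E''), IsPrimitiveRoot ζ N := by
  have h1 : NumberField (CyclotomicField N E') := IsCyclotomicExtension.numberField {N} E' _
  have h2 : Algebra.IsAlgebraic E' (CyclotomicField N E') := by
    have : FiniteDimensional E' (CyclotomicField N E') := IsCyclotomicExtension.finiteDimensional {N} E' _
    exact Algebra.IsAlgebraic.of_finite _ _
  exact ⟨CyclotomicField N E', inferInstance, h1, inferInstance, inferInstance, inferInstance, h2, _,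
    IsCyclotomicExtension.zeta_spec N E' _⟩

section

variable {Γ : Type} [Group Γ] {E : Type} [Field E] [NumberField E] {n : ℕ} {P : Type}
  (M : Realizations Γ E n P)

/-- **From the characters of the nilpotent subgroups to all representations.** -/
theorem good_all (N : Subgroup Γ) [N.Normal] [Finite (Γ ⧸ N)] {W z z' : ℂ} (hW : W ≠ 0)
    (h : ∀ (E' : Type) [Field E'] [NumberField E'] [Algebra E E'] (U : Subgroup Γ), N ≤ U →
      Group.IsNilpotent (U.map (QuotientGroup.mk' N)) → ∀ [Fintype (Γ ⧸ U)] [DecidableEq (Γ ⧸ U)]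
      (ψ : U →* E'ˣ), (∀ γ : U, (γ : Γ) ∈ N → ψ γ = 1) → Good M W z z' (induced U ψ))
    {E' : Type} [Field E'] [NumberField E'] [Algebra E E'] {r : Type} [Fintype r] [DecidableEq r]
    (ρ : Γ →* Matrix r r E') (hρ : ∀ γ ∈ N, ρ γ = 1) : Good M W z z' ρ := by
  classical
  have hne : NeZero (Monoid.exponent (Γ ⧸ N)) := ⟨Monoid.exponent_ne_zero_of_finite⟩
  obtain ⟨E'', _, _, _, _, _, _, ζ, hζ⟩ := exists_field E E' (Monoid.exponent (Γ ⧸ N))
  have a2 : Algebra.IsAlgebraic E E' := by
    have : FiniteDimensional E E' := Module.Finite.of_restrictScalars_finite ℚ E E'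
    exact Algebra.IsAlgebraic.of_finite E E'
  set π : Γ →* Γ ⧸ N := QuotientGroup.mk' N with hπdef
  have hπ : Function.Surjective π := QuotientGroup.mk'_surjective N
  have hker : ∀ γ, π γ = 1 ↔ γ ∈ N := fun γ => by
    rw [hπdef, QuotientGroup.mk'_apply, QuotientGroup.eq_one_iff]
  let T : Set ((Γ ⧸ N) → E'') := {f | ∃ (k : Type) (_ : Fintype k) (_ : DecidableEq k)
    (s : Γ →* Matrix k k E''), (∀ γ ∈ N, s γ = 1) ∧
      (∀ γ, (s γ).trace = f (π γ)) ∧ Good M W z z' s}
  have hadd : ∀ a ∈ T, ∀ b ∈ T, a + b ∈ T := by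
    rintro a ⟨k, _, _, s, h1, h2, h3⟩ b ⟨k', _, _, s', h1', h2', h3'⟩
    refine ⟨k ⊕ k', inferInstance, inferInstance, dsum s s', fun γ hγ => ?_, fun γ => ?_,
      h3.dsum M h3'⟩
    · rw [dsum_apply, h1 γ hγ, h1' γ hγ, fromBlocks_one]
    · rw [trace_dsum, h2, h2', Pi.add_apply]
  have hind : ∀ (U : Subgroup (Γ ⧸ N)) (ψ : U →* E''ˣ), Group.IsNilpotent U →
      ind U (fun u => ((ψ u : E''ˣ) : E'')) ∈ T := by
    intro U ψ hU
    have hNU : N ≤ U.comap π := by
      intro γ hγ
      rw [Subgroup.mem_comap, (hker γ).2 hγ]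
      exact U.one_mem
    have hfin : Finite (Γ ⧸ U.comap π) := by
      have h1 : Finite (Γ ⧸ N) := inferInstance
      have h2 : N.FiniteIndex := Subgroup.finiteIndex_of_finite_quotient
      have h3 : (U.comap π).FiniteIndex := Subgroup.finiteIndex_of_le hNU
      infer_instance
    have i1 : Fintype (Γ ⧸ U.comap π) := Fintype.ofFinite _
    have hmap : (U.comap π).map π = U := Subgroup.map_comap_eq_self_of_surjective hπ U
    have hψ : ∀ γ : U.comap π, (γ : Γ) ∈ N → pull π U ψ γ = 1 := by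
      intro γ hγ
      have h1 : π (γ : Γ) = 1 := (hker _).2 hγ
      change ψ _ = 1
      have h2 : ∀ x : U, (x : Γ ⧸ N) = 1 → ψ x = 1 := by
        intro x hx
        have : x = 1 := Subtype.ext hx
        rw [this, map_one]
      exact h2 _ h1
    refine ⟨Γ ⧸ U.comap π, inferInstance, inferInstance, induced (U.comap π) (pull π U ψ),
      induced_trivial N _ hNU _ hψ, fun γ => trace_induced π hπ U ψ γ, ?_⟩
    exact h E'' (U.comap π) hNU (by rw [hmap]; exact hU) (pull π U ψ) hψ
  obtain ⟨s, hs⟩ := exists_quotient hπ (baseRep E'' ρ) (fun γ hγ => by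
    change (ρ γ).map (algebraMap E' E'') = 1
    rw [hρ γ ((hker γ).1 hγ), Matrix.map_one _ (map_zero _) (map_one _)])
  obtain ⟨τ₀⟩ : Nonempty (E'' →+* ℂ) := inferInstance
  have hf : (fun g => τ₀ ((toRep s).character g)) ∈ AddSubgroup.closure (Irr (Γ ⧸ N)) := by
    have h1 := base_change τ₀ (toRep s)
    exact (AddSubmonoid.closure_le (S := (AddSubgroup.closure (Irr (Γ ⧸ N))).toAddSubmonoid)).2
      (fun x hx => AddSubgroup.subset_closure hx) h1
  obtain ⟨a, ⟨n₁, _, _, ρ₁, h1, h2, h3⟩, b, ⟨n₂, _, _, ρ₂, k1, k2, k3⟩, hab⟩ :=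
    RG.brauer_field hζ τ₀ T hadd hind (toRep s).character hf
  have htr : ∀ γ, (dsum (baseRep E'' ρ) ρ₂ γ).trace = (ρ₁ γ).trace := by
    intro γ
    rw [trace_dsum, h2, k2, ← hs, ← toRep_character, ← hab, Pi.add_apply]
  obtain ⟨s₁, hs₁⟩ := exists_quotient hπ ρ₁ (fun γ hγ => h1 γ ((hker γ).1 hγ))
  obtain ⟨s₂, hs₂⟩ := exists_quotient hπ (dsum (baseRep E'' ρ) ρ₂) (fun γ hγ => by
    rw [dsum_apply, k1 γ ((hker γ).1 hγ), ← hs, hγ, map_one, fromBlocks_one])
  have i2 : Fintype (Γ ⧸ N) := Fintype.ofFinite _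
  obtain ⟨A, B, hAB, hBA, hA⟩ := Helper8K9.DG.IsoL.iso_fin s₂ s₁ (by
    intro g
    obtain ⟨γ, rfl⟩ := hπ g
    rw [hs₁, hs₂]
    exact htr γ)
  refine good_sub M E'' ρ hW h3 k3 A B hAB hBA (fun γ => ?_) ?_
  · rw [← hs₂, ← hs₁]
    exact hA _
  · have h5 := htr 1
    rw [map_one, map_one, Matrix.trace_one, Matrix.trace_one, Fintype.card_sum] at h5
    exact_mod_cast h5

end

end Pool.Agent.Helper51K9.TI
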