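import Pool.Agent.Helper51K9.TI.Arith
import Pool.Agent.Helper51K9.TI.Ind

/-!
# Deligne's formula for all Artin twists
-/

set_option autoImplicit false
set_option linter.unusedSectionVars false

namespace Pool.Agent.Helper51K9.TI

open Matrix Polynomial Filter Topology NumberField

variable {A : Type} [Field A] [CharZero A] [IsAlgClosed A] [Algebra.IsAlgebraic ℚ A]
  (hD : S_DELTA) {ι : A →+* ℂ} {c : A ≃ₐ[ℚ] A} (hc : IsConj ι c) {F : IntermediateField ℚ A}
  [FiniteDimensional ℚ F] (hF : TotallyImaginary c F) {E : Type} [Field E] [NumberField E] {n : ℕ}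
  (M : Motive F E n) {m : ℤ} (hm : IsCritical M m) (Ω : IntermediateField ℚ A)
  [FiniteDimensional ℚ Ω] (hΩ : F ≤ Ω) [(gal F Ω).Normal]

include hD hc hF hm hΩ

theorem main (h : NilpotentRatios M ι c m Ω) (E' : Type) [Field E'] [NumberField E'] [Algebra E E']
    (r : Type) [Fintype r] [DecidableEq r] (ρ : F.fixingSubgroup →* Matrix r r E')
    (hρ : TrivialOn Ω ρ) : HasL M.toRealizations ρ ∧
      RatioFormula M ι c m F (n * Fintype.card r) ρ := by
  obtain ⟨δ, hδ⟩ := exists_delta ι c F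
  have hfin : Finite (F.fixingSubgroup ⧸ gal F Ω) := finite_quot F Ω hΩ
  have hs : ∀ j, (M.hodge j : ℝ) < ((m : ℂ)).re := by
    intro j
    rw [Complex.intCast_re]
    exact_mod_cast (hm j).1
  have hs' : ∀ j, (M.hodge j : ℝ) < (((m + 1 : ℤ) : ℂ)).re := by
    intro j
    rw [Complex.intCast_re]
    have := (hm j).1
    exact_mod_cast this.trans (lt_add_one m)
  have hW : (Complex.I ^ (Module.finrank ℚ F / 2) * ι δ) ^ n *
      (gammaFactor M 1 ((m + 1 : ℤ) : ℂ) / gammaFactor M 1 (m : ℂ)) ≠ 0 := by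
    refine mul_ne_zero (pow_ne_zero _ (mul_ne_zero (pow_ne_zero _ Complex.I_ne_zero) ?_))
      (div_ne_zero (gamma_ne M 1 hs') (gamma_ne M 1 hs))
    exact (map_ne_zero ι).2 (delta_ne hδ)
  have key := good_all M.toRealizations (gal F Ω) hW (z := (m : ℂ)) (z' := ((m + 1 : ℤ) : ℂ)) (by
    intro k _ _ _ U hU hnil _ _ ψ hψ
    obtain ⟨K, hFK, hKΩ, rfl⟩ := exists_field_of F Ω hΩ U hU
    obtain ⟨h1, h2⟩ := h k K hFK hKΩ hnil ψ (fun γ hγ => hψ γ (Subgroup.mem_subgroupOf.2 hγ))
    have hfd : FiniteDimensional ℚ K :=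
      Module.Finite.of_injective (IntermediateField.inclusion hKΩ).toLinearMap
        (IntermediateField.inclusion hKΩ).injective
    rw [formula_iff hD hc hF M K hFK, ← card_quot F K hFK,
      formula_iff_ratio hD hc hF M hm hδ] at h2
    exact good_of _ h1 h2) ρ (fun γ hγ => hρ γ (Subgroup.mem_subgroupOf.1 hγ))
  have a2 : Algebra.IsAlgebraic E E' := by
    have : FiniteDimensional E E' := Module.Finite.of_restrictScalars_finite ℚ E E'
    exact Algebra.IsAlgebraic.of_finite E E'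
  exact ⟨key.hasL, (formula_iff_ratio hD hc hF M hm hδ ρ).2 (key.ratio M.toRealizations)⟩

/-- the converse -/
theorem conv (h : ∀ (E' : Type) [Field E'] [NumberField E'] [Algebra E E']
    (r : Type) [Fintype r] [DecidableEq r] (ρ : F.fixingSubgroup →* Matrix r r E'),
    TrivialOn Ω ρ → HasL M.toRealizations ρ ∧
      RatioFormula M ι c m F (n * Fintype.card r) ρ) : NilpotentRatios M ι c m Ω := by
  intro E' _ _ _ K hFK hKΩ _ _ _ ψ hψ
  have hfd : FiniteDimensional ℚ K :=
    Module.Finite.of_injective (IntermediateField.inclusion hKΩ).toLinearMap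
      (IntermediateField.inclusion hKΩ).injective
  have hle : gal F Ω ≤ gal F K := by
    intro γ hγ
    rw [Subgroup.mem_subgroupOf] at hγ ⊢
    exact IntermediateField.fixingSubgroup_antitone hKΩ hγ
  obtain ⟨h1, h2⟩ := h E' (F.fixingSubgroup ⧸ gal F K) (induced (gal F K) ψ) (fun γ hγ =>
    induced_trivial (gal F Ω) (gal F K) hle ψ
      (fun γ hγ => hψ γ (Subgroup.mem_subgroupOf.1 hγ)) γ (Subgroup.mem_subgroupOf.2 hγ))
  refine ⟨h1, ?_⟩
  rw [formula_iff hD hc hF M K hFK, ← card_quot F K hFK]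
  exact h2

end Pool.Agent.Helper51K9.TI
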