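import Pool.Agent.Helper51K9.TI.Abs
import Pool.Agent.Helper51K9.TI.Delta

/-!
# Motives over a totally imaginary field and Deligne's formula for the ratio of two critical values
-/

set_option autoImplicit false

namespace Pool.Agent.Helper51K9.TI

open Matrix Polynomial Filter Topology NumberField IsDedekindDomain

section

variable {A : Type} [Field A] [CharZero A]

/-- in the Galois group of `F`, `I` is the inertia group and `φ` a geometric Frobenius element of a
prime above the finite place `v` of `F` -/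
def IsInertiaFrobenius (F : IntermediateField ℚ A) (v : HeightOneSpectrum (𝓞 F))
    (I : Subgroup F.fixingSubgroup) (φ : F.fixingSubgroup) : Prop :=
  ∃ Q : Ideal (𝓞 A), Q.IsMaximal ∧ Q.comap (algebraMap (𝓞 F) (𝓞 A)) = v.asIdeal ∧
    (∀ σ : F.fixingSubgroup, σ ∈ I ↔ ∀ x : 𝓞 A, (σ : A ≃ₐ[ℚ] A) • x - x ∈ Q) ∧
    ∀ x : 𝓞 A, (φ : A ≃ₐ[ℚ] A)⁻¹ • x - x ^ Nat.card (𝓞 F ⧸ v.asIdeal) ∈ Q

/-- **Motives.** A pure motive `M₀` over the number field `F`, of rank `n`, with coefficients in `E`, as
far as it is used: its weight; its `λ`-adic realizations, with an inertia group and a geometric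
Frobenius element for every finite place of `F`; and the Hodge types `(p, w - p)`, `p < w - p`, of
`M = Res_{F/ℚ} M₀`, in number `n [F : ℚ] / 2` (`F` is totally imaginary, there is no middle Hodge
type; the other Hodge types are `(w - p, p)`). -/
structure Motive (F : IntermediateField ℚ A) (E : Type) [Field E] (n : ℕ) extends
    Realizations F.fixingSubgroup E n (HeightOneSpectrum (𝓞 F)) where
  isFrob : ∀ v, IsInertiaFrobenius F v (inertia v) (frob v)
  norm_eq : ∀ v, norm v = Nat.card (𝓞 F ⧸ v.asIdeal)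
  weight : ℤ
  hodge : Fin (n * (Module.finrank ℚ F / 2)) → ℤ
  hodge_lt : ∀ j, hodge j < weight - hodge j

variable {F : IntermediateField ℚ A} {E : Type} [Field E] {n : ℕ}

/-- the integer `m` is critical: `p < m ≤ w - p` for all Hodge types `(p, w - p)` with `p < w - p` -/
def IsCritical (M : Motive F E n) (m : ℤ) : Prop :=
  ∀ j, M.hodge j < m ∧ m ≤ M.weight - M.hodge j

/-- the archimedean factor of the L-function of `M ⊗ ρ`, `ρ` of dimension `r` -/
noncomputable def gammaFactor (M : Motive F E n) (r : ℕ) (s : ℂ) : ℂ :=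
  ∏ j, Complex.Gammaℂ (s - M.hodge j) ^ r

variable (M : Motive F E n) {E' : Type} [Field E'] [Algebra E E'] {r : Type} [Fintype r]
  [DecidableEq r]

/-- `Λ` is the completed L-function of `M ⊗ ρ` (for all embeddings of the coefficients) -/
def IsCompletedLFunction (ρ : F.fixingSubgroup →* Matrix r r E') (Λ : (E' →+* ℂ) → ℂ → ℂ) : Prop :=
  ∃ L, IsLFunction M.toRealizations ρ L ∧
    ∀ τ s, Λ τ s = gammaFactor M (Fintype.card r) s * L τ s

/-- **Deligne's formula** `L(m, N) / L(m + 1, N) = (i ^ (d / 2) Δ) ^ k`, up to the multiplicative group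
of the field of coefficients `E'`, for a motive `N` of rank `k` over the field `K` of degree `d` over
`ℚ`, `Δ = Δ_K`, whose L-function is the one of `M ⊗ ρ`: the completed L-function has finite nonzero
values at `m` and `m + 1`, and their quotient is the given one, with the same element `e` of `E'` for all
the embeddings `τ` of `E'` -/
def RatioFormula (ι : A →+* ℂ) (c : A ≃ₐ[ℚ] A) (m : ℤ) (K : IntermediateField ℚ A) (k : ℕ)
    (ρ : F.fixingSubgroup →* Matrix r r E') : Prop :=
  ∀ Λ, IsCompletedLFunction M ρ Λ → ∀ δ, IsDelta ι c K δ →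
    ∃ e : E', e ≠ 0 ∧ ∀ τ : E' →+* ℂ, ∃ a a' : ℂ, a ≠ 0 ∧ a' ≠ 0 ∧
      Tendsto (Λ τ) (𝓝[≠] (m : ℂ)) (𝓝 a) ∧ Tendsto (Λ τ) (𝓝[≠] ((m + 1 : ℤ) : ℂ)) (𝓝 a') ∧
      a = τ e * (Complex.I ^ (Module.finrank ℚ K / 2) * ι δ) ^ k * a'

/-- the Galois group of `K`, as a subgroup of the Galois group of `F` -/
abbrev gal (F K : IntermediateField ℚ A) : Subgroup F.fixingSubgroup :=
  K.fixingSubgroup.subgroupOf F.fixingSubgroup

/-- `ρ` is trivial on the Galois group of `Ω` -/
def TrivialOn (Ω : IntermediateField ℚ A) {H : Type} [One H] (ρ : F.fixingSubgroup → H) : Prop :=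
  ∀ γ : F.fixingSubgroup, (γ : A ≃ₐ[ℚ] A) ∈ Ω.fixingSubgroup → ρ γ = 1

/-- **The hypothesis**: for all the fields `K` between `F` and `Ω` such that the Galois group of `Ω` over
`K` is nilpotent, and all characters `ψ` of this Galois group with values in number fields that contain
`E`, the L-function of `M_K ⊗ ψ`, that is of `M ⊗ Ind ψ`, exists and satisfies Deligne's formula over `K` -/
def NilpotentRatios (ι : A →+* ℂ) (c : A ≃ₐ[ℚ] A) (m : ℤ) (Ω : IntermediateField ℚ A)
    [(gal F Ω).Normal] : Prop :=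
  ∀ (E' : Type) [Field E'] [NumberField E'] [Algebra E E'] (K : IntermediateField ℚ A),
    F ≤ K → K ≤ Ω → Group.IsNilpotent ((gal F K).map (QuotientGroup.mk' (gal F Ω))) →
    ∀ [Fintype (F.fixingSubgroup ⧸ gal F K)] [DecidableEq (F.fixingSubgroup ⧸ gal F K)]
      (ψ : gal F K →* E'ˣ), (∀ γ : gal F K, ((γ : F.fixingSubgroup) : A ≃ₐ[ℚ] A) ∈ Ω.fixingSubgroup →
        ψ γ = 1) → HasL M.toRealizations (induced (gal F K) ψ) ∧
          RatioFormula M ι c m K n (induced (gal F K) ψ)

end

end Pool.Agent.Helper51K9.TI
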